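import Pool.Agent.LR.B5.Cells

/-!
# LR-B4-BLK: blocks of the pinned model are integer rectangles of area `~ δ² n²`
-/

set_option autoImplicit false

noncomputable section

open scoped BigOperators Topology
open MeasureTheory Filter Set

namespace Pool.Agent.LR.B4

/-- Pinned cells lie in the disc of radius `6ρ`. -/
theorem cell_sub {z₀ : P} {ρ δ : ℝ} (hρ : 0 < ρ) (hδ : 0 < δ) {i : V} (hi : i ∈ pin z₀ ρ δ) :
    ∀ z ∈ cellP z₀ δ i, |z.1 - z₀.1| ≤ 6 * ρ ∧ |z.2 - z₀.2| ≤ 6 * ρ := by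
  intro z hz
  have h := (B5.shell_of_pin hρ hδ hi hz).2
  have h1 := B5.abs_fst_le_lenP (z - z₀)
  have h2 := B5.abs_snd_le_lenP (z - z₀)
  rw [Prod.fst_sub] at h1
  rw [Prod.snd_sub] at h2
  exact ⟨h1.trans h, h2.trans h⟩

theorem pin_nonempty {z₀ : P} {ρ δ : ℝ} (hρ : 0 < ρ) (hδ : 0 < δ) (hδρ : δ ≤ ρ / 8) :
    (pin z₀ ρ δ).Nonempty := by
  set k : ℤ := ⌊5 / 4 * ρ / δ⌋ with hk
  have h1 := Int.floor_le (5 / 4 * ρ / δ)
  have h2 := Int.lt_floor_add_one (5 / 4 * ρ / δ)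
  rw [← hk] at h1 h2
  rw [le_div_iff₀ hδ] at h1
  rw [div_lt_iff₀ hδ] at h2
  refine ⟨(k, 0), ?_⟩
  rw [B5.mem_pin_iff hρ hδ]
  left
  intro z hz
  rw [B5.mem_shell]
  simp only [cellP, rct, Set.mem_prod, Set.mem_Icc] at hz
  obtain ⟨⟨a1, a2⟩, a3, a4⟩ := hz
  push_cast at a3 a4
  have e1 : (z - z₀).1 = z.1 - z₀.1 := rfl
  have e2 : (z - z₀).2 = z.2 - z₀.2 := rfl
  have b1 := B5.abs_fst_le_lenP (z - z₀)
  rw [e1] at b1
  have b2 : z.1 - z₀.1 ≤ lenP (z - z₀) := (le_abs_self _).trans b1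
  constructor
  · push_cast
    nlinarith
  · have b3 : lenP (z - z₀) ≤ |(z - z₀).1| + |(z - z₀).2| := by
      unfold lenP
      rw [Real.sqrt_le_iff]
      refine ⟨by positivity, ?_⟩
      nlinarith [abs_nonneg (z - z₀).1, abs_nonneg (z - z₀).2, sq_abs (z - z₀).1,
        sq_abs (z - z₀).2]
    have b4 : |(z - z₀).1| ≤ 5 / 4 * ρ + δ := by
      rw [e1, abs_le]
      constructor <;> nlinarith
    have b5 : |(z - z₀).2| ≤ δ := by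
      rw [e2, abs_le]
      constructor <;> nlinarith
    push_cast
    linarith

theorem blk_eq {z₀ : P} {ρ δ : ℝ} (hρ : 0 < ρ) (hδ : 0 < δ) {i : V} (hi : i ∈ pin z₀ ρ δ)
    {n : ℕ} (hn : 0 < n) :
    blk z₀ ρ δ n i = Finset.Ico ⌈(n : ℝ) * (z₀.1 + i.1 * δ)⌉ ⌈(n : ℝ) * (z₀.1 + (i.1 + 1) * δ)⌉ ×ˢ
      Finset.Ico ⌈(n : ℝ) * (z₀.2 + i.2 * δ)⌉ ⌈(n : ℝ) * (z₀.2 + (i.2 + 1) * δ)⌉ := by
  rw [B5.blk_eq hρ hδ hn hi]
  unfold B5.rect B5.lo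
  push_cast
  rfl

private theorem side_lim (z δ : ℝ) (i : ℤ) (hδ : 0 < δ) :
    Tendsto (fun n : ℕ => (((⌈(n : ℝ) * (z + (i + 1) * δ)⌉ - ⌈(n : ℝ) * (z + i * δ)⌉).toNat : ℕ) : ℝ)
      / n) atTop (𝓝 δ) := by
  have hn := tendsto_natCast_atTop_atTop (R := ℝ)
  have hinv : Tendsto (fun n : ℕ => 1 / (n : ℝ)) atTop (𝓝 0) := tendsto_one_div_atTop_nhds_zero_nat
  have l1 : Tendsto (fun n : ℕ => δ - 1 / (n : ℝ)) atTop (𝓝 δ) := by
    simpa using (tendsto_const_nhds (x := δ)).sub hinv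
  have l2 : Tendsto (fun n : ℕ => δ + 1 / (n : ℝ)) atTop (𝓝 δ) := by
    simpa using (tendsto_const_nhds (x := δ)).add hinv
  refine tendsto_of_tendsto_of_tendsto_of_le_of_le' l1 l2 ?_ ?_
  · filter_upwards [eventually_gt_atTop 0] with n hn0
    have hn' : (0 : ℝ) < n := by exact_mod_cast hn0
    have e0 : (δ - 1 / (n : ℝ)) * n = δ * n - 1 := by field_simp
    rw [le_div_iff₀ hn', e0]
    have h1 := Int.le_ceil ((n : ℝ) * (z + (i + 1) * δ))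
    have h2 := Int.ceil_lt_add_one ((n : ℝ) * (z + i * δ))
    have h3 : ((⌈(n : ℝ) * (z + (i + 1) * δ)⌉ - ⌈(n : ℝ) * (z + i * δ)⌉ : ℤ) : ℝ) ≤
        (((⌈(n : ℝ) * (z + (i + 1) * δ)⌉ - ⌈(n : ℝ) * (z + i * δ)⌉).toNat : ℕ) : ℝ) := by
      exact_mod_cast Int.self_le_toNat _
    push_cast at h3
    nlinarith
  · filter_upwards [eventually_gt_atTop 0] with n hn0
    have hn' : (0 : ℝ) < n := by exact_mod_cast hn0
    have e0 : (δ + 1 / (n : ℝ)) * n = δ * n + 1 := by field_simp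
    rw [div_le_iff₀ hn', e0]
    have h1 := Int.le_ceil ((n : ℝ) * (z + i * δ))
    have h2 := Int.ceil_lt_add_one ((n : ℝ) * (z + (i + 1) * δ))
    have h3 : 0 ≤ ⌈(n : ℝ) * (z + (i + 1) * δ)⌉ - ⌈(n : ℝ) * (z + i * δ)⌉ := by
      rw [sub_nonneg]
      apply Int.ceil_mono
      nlinarith [mul_pos hn' hδ]
    have h4 : (((⌈(n : ℝ) * (z + (i + 1) * δ)⌉ - ⌈(n : ℝ) * (z + i * δ)⌉).toNat : ℕ) : ℝ) =
        ((⌈(n : ℝ) * (z + (i + 1) * δ)⌉ - ⌈(n : ℝ) * (z + i * δ)⌉ : ℤ) : ℝ) := by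
      exact_mod_cast Int.toNat_of_nonneg h3
    rw [h4]
    push_cast
    nlinarith

theorem blk_card {z₀ : P} {ρ δ : ℝ} (hρ : 0 < ρ) (hδ : 0 < δ) {i : V} (hi : i ∈ pin z₀ ρ δ) :
    Tendsto (fun n : ℕ => ((blk z₀ ρ δ n i).card : ℝ) / (n : ℝ) ^ 2) atTop (𝓝 (δ ^ 2)) := by
  have h := (side_lim z₀.1 δ i.1 hδ).mul (side_lim z₀.2 δ i.2 hδ)
  rw [← sq] at h
  refine h.congr' ?_
  filter_upwards [eventually_gt_atTop 0] with n hn
  rw [blk_eq hρ hδ hi hn, Finset.card_product, Int.card_Ico, Int.card_Ico]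
  push_cast
  rw [div_mul_div_comm, sq]

theorem blk_sub {z₀ : P} {ρ δ : ℝ} {n : ℕ} {i : V} : blk z₀ ρ δ n i ⊆ SS z₀ ρ n :=
  Finset.filter_subset _ _

/-- All blocks are nonempty for large `n`. -/
theorem blk_nonempty {z₀ : P} {ρ δ : ℝ} (hρ : 0 < ρ) (hδ : 0 < δ) :
    ∀ᶠ n : ℕ in atTop, ∀ i ∈ pin z₀ ρ δ, (blk z₀ ρ δ n i).Nonempty := by
  rw [Finset.eventually_all]
  intro i hi
  have h := (blk_card hρ hδ hi).eventually (lt_mem_nhds (show (0 : ℝ) < δ ^ 2 by positivity))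
  filter_upwards [h] with n hn
  rw [← Finset.card_pos]
  by_contra hcon
  have : (blk z₀ ρ δ n i).card = 0 := by omega
  rw [this] at hn
  simp at hn

/-- Sites of the block lie over the closed cell. -/
theorem sc_mem_cell {z₀ : P} {ρ δ : ℝ} (hδ : 0 < δ) {n : ℕ} {i x : V}
    (hx : x ∈ blk z₀ ρ δ n i) : sc n x ∈ cellP z₀ δ i := by
  unfold blk at hx
  rw [Finset.mem_filter] at hx
  have h := B5.sc_mem_cell (z₀ := z₀) hδ n x
  rwa [hx.2] at h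

end Pool.Agent.LR.B4
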