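import Pool.Agent.LR.IDefs

/-! # B4: block charges and their densities -/

set_option autoImplicit false

noncomputable section

open scoped BigOperators Topology
open MeasureTheory Filter Set

namespace Pool.Agent.LR.B4

/-- The charge of the functional `∑ c_i w_i`. -/
def bq (z₀ : P) (ρ δ : ℝ) (c : V → ℝ) (n : ℕ) : V → ℝ := fun x =>
  ∑ i ∈ pin z₀ ρ δ, c i * (if x ∈ blk z₀ ρ δ n i then ((blk z₀ ρ δ n i).card : ℝ)⁻¹ else 0)

open Classical in
/-- Its density. -/
def bF (z₀ : P) (ρ δ : ℝ) (c : V → ℝ) : P → ℝ := fun z =>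
  ∑ i ∈ pin z₀ ρ δ, c i * (if z ∈ cellP z₀ δ i then (δ ^ 2)⁻¹ else 0)

/-- Reflection of the plane in the line `x₁ = p`. -/
def refP (p : ℝ) (z : P) : P := (2 * p - z.1, z.2)

/-- Reflection of the lattice in the column `x₁ = m`. -/
def refV (m : ℤ) (x : V) : V := (2 * m - x.1, x.2)

end Pool.Agent.LR.B4
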