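import Pool.Agent.LR.B4.Bump
import Pool.Agent.LR.B4.ChgDefs

/-!
# LR-B4-BLOW: the capacity of a far dipole is large

PLAN. `C` from `bump`. For `k : ℕ`, `A : ℝ` put `G z = A * (W z - W (refP p z))`, `W` from `bump R k`, `p ≥ 2^(k+1) R`, `p ≥ 1`.
The boxes `{|z.1|,|z.2| ≤ 2^k R}` and its mirror image `{|2p - z.1| ≤ 2^k R, ..}` are disjoint and both inside the rectangle
`rct (-3p) (5p) (-4p) (4p)`, so all set integrals over it are integrals over the plane. `F` is supported in the first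
box, where `W = k` on `supp F` and `W ∘ refP = 0`: `∫ F G = A k 2πl`; by the measure preserving reflection
(`refP p` involutive, `(measurePreserving_sub_left volume (2p)).prod (MeasurePreserving.id volume)`)
`∫ F(refP z) G z = ∫ F z G(refP z) = -A k 2πl`. So the first term is `2 * 2 A k 2πl = 8πAkl`.
`gsq G z = A² (gsq W z + gsq W (refP z))` (disjoint supports; partial derivatives of `W ∘ refP`: chain rule, sign of the
first one), so `∫ gsq G = 2A² ∫ gsq W ≤ 2 A² C k`. Value `≥ k (8πAl - 2 c C A²)`. With `A = 2πl/(cC)` it is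
`k * 8π²l²/(cC)`, `≥ B` for `k` large (chosen before `p₀ = ⌈2^(k+1) R⌉ + 1`).
-/

set_option autoImplicit false

noncomputable section

open scoped BigOperators Topology
open MeasureTheory Filter Set

namespace Pool.Agent.LR.B4

private theorem refP_inv (p : ℝ) : Function.Involutive (refP p) := by
  intro z
  unfold refP
  ext <;> simp

theorem refP_mp (p : ℝ) : MeasurePreserving (refP p) volume volume := by
  have h := (Measure.measurePreserving_sub_left (volume : Measure ℝ) (2 * p)).prod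
    (MeasurePreserving.id (volume : Measure ℝ))
  rw [← Measure.volume_eq_prod] at h
  exact h

private theorem refP_emb (p : ℝ) : MeasurableEmbedding (refP p) :=
  (MeasurableEquiv.ofInvolutive (refP p) (refP_inv p) (refP_mp p).measurable).measurableEmbedding

private theorem refP_cd (p : ℝ) : ContDiff ℝ 2 (refP p) := by
  unfold refP
  exact (contDiff_const.sub contDiff_fst).prodMk contDiff_snd

private theorem refP_fd (p : ℝ) (z : P) :
    HasFDerivAt (refP p) ((-(ContinuousLinearMap.fst ℝ ℝ ℝ)).prod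
      (ContinuousLinearMap.snd ℝ ℝ ℝ)) z := by
  unfold refP
  exact (hasFDerivAt_fst.const_sub (2 * p)).prodMk hasFDerivAt_snd

private theorem gsq_G {W : P → ℝ} (hW : ContDiff ℝ 2 W) (p A r : ℝ) (hr : r < p)
    (hsup : ∀ z : P, gsq W z ≠ 0 → |z.1| ≤ r ∧ |z.2| ≤ r) (z : P) :
    gsq (fun z => A * (W z - W (refP p z))) z = A ^ 2 * (gsq W z + gsq W (refP p z)) := by
  have hd : Differentiable ℝ W := hW.differentiable (by norm_num)
  have h1 : HasFDerivAt (fun z => A * (W z - W (refP p z)))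
      (A • (fderiv ℝ W z - (fderiv ℝ W (refP p z)).comp
        ((-(ContinuousLinearMap.fst ℝ ℝ ℝ)).prod (ContinuousLinearMap.snd ℝ ℝ ℝ)))) z := by
    have h2 := (hd (refP p z)).hasFDerivAt.comp z (refP_fd p z)
    exact ((hd z).hasFDerivAt.sub h2).const_mul A
  have e1 : fderiv ℝ (fun z => A * (W z - W (refP p z))) z (1, 0) =
      A * (fderiv ℝ W z (1, 0) + fderiv ℝ W (refP p z) (1, 0)) := by
    rw [h1.fderiv]
    have e : ((-1 : ℝ), (0 : ℝ)) = -((1 : ℝ), (0 : ℝ)) := by ext <;> simp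
    simp only [ContinuousLinearMap.smul_apply, ContinuousLinearMap.sub_apply,
      ContinuousLinearMap.comp_apply, ContinuousLinearMap.prod_apply,
      ContinuousLinearMap.neg_apply, ContinuousLinearMap.coe_fst', ContinuousLinearMap.coe_snd',
      smul_eq_mul]
    rw [e, map_neg]
    ring
  have e2 : fderiv ℝ (fun z => A * (W z - W (refP p z))) z (0, 1) =
      A * (fderiv ℝ W z (0, 1) - fderiv ℝ W (refP p z) (0, 1)) := by
    rw [h1.fderiv]
    simp only [ContinuousLinearMap.smul_apply, ContinuousLinearMap.sub_apply,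
      ContinuousLinearMap.comp_apply, ContinuousLinearMap.prod_apply,
      ContinuousLinearMap.neg_apply, ContinuousLinearMap.coe_fst', ContinuousLinearMap.coe_snd',
      smul_eq_mul, neg_zero]
  -- the supports are disjoint
  have hdis : gsq W z = 0 ∨ gsq W (refP p z) = 0 := by
    by_contra h
    push Not at h
    have a1 := (hsup z h.1).1
    have a2 := (hsup _ h.2).1
    have a3 : |2 * p - z.1| ≤ r := a2
    rw [abs_le] at a1 a3
    linarith [a1.2, a3.1, a3.2]
  have hz0 : ∀ w : P, gsq W w = 0 → fderiv ℝ W w (1, 0) = 0 ∧ fderiv ℝ W w (0, 1) = 0 := by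
    intro w hw
    unfold gsq at hw
    have b1 := sq_nonneg (fderiv ℝ W w (1, 0))
    have b2 := sq_nonneg (fderiv ℝ W w (0, 1))
    constructor
    · exact pow_eq_zero_iff (two_ne_zero) |>.1 (by linarith)
    · exact pow_eq_zero_iff (two_ne_zero) |>.1 (by linarith)
  have e3 : gsq (fun z => A * (W z - W (refP p z))) z =
      (A * (fderiv ℝ W z (1, 0) + fderiv ℝ W (refP p z) (1, 0))) ^ 2 +
      (A * (fderiv ℝ W z (0, 1) - fderiv ℝ W (refP p z) (0, 1))) ^ 2 := by
    unfold gsq
    rw [e1, e2]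
  rw [e3]
  unfold gsq
  rcases hdis with h | h
  · obtain ⟨q1, q2⟩ := hz0 _ h
    rw [q1, q2]
    ring
  · obtain ⟨q1, q2⟩ := hz0 _ h
    rw [q1, q2]
    ring

theorem blow {c R : ℝ} (hc : 0 < c) (hR : 0 < R) (l : ℤ) (hl : l ≠ 0) (B : ℝ) :
    ∃ p₀ : ℕ, ∀ p : ℕ, p₀ ≤ p → ∀ F : P → ℝ, Integrable F →
      (∀ z : P, F z ≠ 0 → |z.1| ≤ R ∧ |z.2| ≤ R) → ∫ z, F z = 2 * Real.pi * l →
      ∃ G : P → ℝ, ContDiff ℝ 2 G ∧
        B ≤ 2 * (∫ z in rct (-(3 * (p : ℝ))) (5 * p) (-(4 * (p : ℝ))) (4 * p),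
            (F z - F (refP p z)) * G z) -
          c * ∫ z in rct (-(3 * (p : ℝ))) (5 * p) (-(4 * (p : ℝ))) (4 * p), gsq G z := by
  obtain ⟨C, hC, hb⟩ := bump
  have hl' : (l : ℝ) ≠ 0 := by exact_mod_cast hl
  have hl2 : 0 < (l : ℝ) ^ 2 := by positivity
  have hpi := Real.pi_pos
  have hD : 0 < 8 * Real.pi ^ 2 * (l : ℝ) ^ 2 / (c * C) := by positivity
  obtain ⟨k, hk⟩ := exists_nat_ge (B / (8 * Real.pi ^ 2 * (l : ℝ) ^ 2 / (c * C)))
  rw [div_le_iff₀ hD] at hk
  obtain ⟨W, hWcd, hW1, hW2, hW3, hWi, hWint⟩ := hb R hR k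
  set r : ℝ := 2 ^ k * R with hr
  have hRr : R ≤ r := by
    have : (1 : ℝ) ≤ 2 ^ k := one_le_pow₀ (by norm_num)
    rw [hr]
    nlinarith
  set A : ℝ := 2 * Real.pi * l / (c * C) with hA
  refine ⟨⌈r⌉₊ + 1, fun p hp F hF hFs hFi => ?_⟩
  have hrp : r < p := by
    have h1 := Nat.le_ceil r
    have h2 : ((⌈r⌉₊ + 1 : ℕ) : ℝ) ≤ p := by exact_mod_cast hp
    push_cast at h2
    linarith
  have hr0 : 0 < r := lt_of_lt_of_le hR hRr
  have hp0 : (0 : ℝ) < p := hr0.trans hrp
  set S : Set P := rct (-(3 * (p : ℝ))) (5 * p) (-(4 * (p : ℝ))) (4 * p) with hS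
  have mem1 : ∀ z : P, |z.1| ≤ r → |z.2| ≤ r → z ∈ S := by
    intro z h1 h2
    rw [abs_le] at h1 h2
    rw [hS]
    unfold rct
    refine ⟨⟨?_, ?_⟩, ⟨?_, ?_⟩⟩ <;> linarith [h1.1, h1.2, h2.1, h2.2]
  have mem2 : ∀ z : P, |(refP p z).1| ≤ r → |(refP p z).2| ≤ r → z ∈ S := by
    intro z h1 h2
    have h1' : |2 * (p : ℝ) - z.1| ≤ r := h1
    have h2' : |z.2| ≤ r := h2
    rw [abs_le] at h1' h2'
    rw [hS]
    unfold rct
    refine ⟨⟨?_, ?_⟩, ⟨?_, ?_⟩⟩ <;> linarith [h1'.1, h1'.2, h2'.1, h2'.2]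
  have dis : ∀ z : P, |z.1| ≤ r → ¬ |(refP p z).1| ≤ r := by
    intro z h1 h2
    have h2' : |2 * (p : ℝ) - z.1| ≤ r := h2
    rw [abs_le] at h1 h2'
    linarith [h1.2, h2'.2, h2'.1]
  refine ⟨fun z => A * (W z - W (refP p z)), ?_, ?_⟩
  · exact contDiff_const.mul (hWcd.sub (hWcd.comp (refP_cd p)))
  -- the values on the supports
  have v1 : ∀ z : P, F z ≠ 0 → W z - W (refP p z) = k := by
    intro z hz
    obtain ⟨a1, a2⟩ := hFs z hz
    have h0 : W (refP p z) = 0 := by
      by_contra h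
      exact dis z (a1.trans hRr) (hW2 _ h).1
    rw [hW1 z a1 a2, h0, sub_zero]
  have v2 : ∀ z : P, F (refP p z) ≠ 0 → W z - W (refP p z) = -k := by
    intro z hz
    have h := v1 (refP p z) hz
    rw [refP_inv p z] at h
    linarith
  have e1 : ∀ z : P, (F z - F (refP p z)) * (A * (W z - W (refP p z))) =
      A * k * F z + A * k * F (refP p z) := by
    intro z
    by_cases h1 : F z = 0
    · by_cases h2 : F (refP p z) = 0
      · rw [h1, h2]; ring
      · rw [h1, v2 z h2]; ring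
    · by_cases h2 : F (refP p z) = 0
      · rw [h2, v1 z h1]; ring
      · exact absurd ((hFs _ h2).1.trans hRr) (dis z ((hFs z h1).1.trans hRr))
  have hFr : Integrable (fun z => F (refP p z)) :=
    ((refP_mp p).integrable_comp_emb (refP_emb p)).2 hF
  have i1 : ∫ z in S, (F z - F (refP p z)) * (A * (W z - W (refP p z))) =
      4 * Real.pi * A * k * l := by
    rw [setIntegral_eq_integral_of_forall_compl_eq_zero (fun z hz => ?_)]
    · simp only [e1]
      rw [integral_add (hF.const_mul _) (hFr.const_mul _), integral_const_mul,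
        integral_const_mul, (refP_mp p).integral_comp (refP_emb p) F, hFi]
      ring
    · rw [e1]
      have h1 : F z = 0 := by
        by_contra h
        obtain ⟨a1, a2⟩ := hFs z h
        exact hz (mem1 z (a1.trans hRr) (a2.trans hRr))
      have h2 : F (refP p z) = 0 := by
        by_contra h
        obtain ⟨a1, a2⟩ := hFs _ h
        exact hz (mem2 z (a1.trans hRr) (a2.trans hRr))
      rw [h1, h2]
      ring
  have hWr : Integrable (fun z => gsq W (refP p z)) :=
    ((refP_mp p).integrable_comp_emb (refP_emb p)).2 hWi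
  have e2 : ∀ z : P, gsq (fun z => A * (W z - W (refP p z))) z =
      A ^ 2 * (gsq W z + gsq W (refP p z)) := fun z => gsq_G hWcd p A r hrp hW3 z
  have i2 : ∫ z in S, gsq (fun z => A * (W z - W (refP p z))) z =
      2 * A ^ 2 * ∫ z, gsq W z := by
    rw [setIntegral_eq_integral_of_forall_compl_eq_zero (fun z hz => ?_)]
    · simp only [e2]
      rw [integral_const_mul, integral_add hWi hWr,
        (refP_mp p).integral_comp (refP_emb p) (gsq W)]
      ring
    · rw [e2]
      have h1 : gsq W z = 0 := by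
        by_contra h
        obtain ⟨a1, a2⟩ := hW3 z h
        exact hz (mem1 z a1 a2)
      have h2 : gsq W (refP p z) = 0 := by
        by_contra h
        obtain ⟨a1, a2⟩ := hW3 _ h
        exact hz (mem2 z a1 a2)
      rw [h1, h2]
      ring
  change B ≤ 2 * (∫ z in S, (F z - F (refP p z)) * (A * (W z - W (refP p z)))) -
    c * ∫ z in S, gsq (fun z => A * (W z - W (refP p z))) z
  rw [i1, i2]
  have h3 : c * (2 * A ^ 2 * ∫ z, gsq W z) ≤ c * (2 * A ^ 2 * (C * k)) := by
    have : 0 ≤ c * (2 * A ^ 2) := by positivity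
    nlinarith
  have h4 : 2 * (4 * Real.pi * A * k * l) - c * (2 * A ^ 2 * (C * k)) =
      k * (8 * Real.pi ^ 2 * (l : ℝ) ^ 2 / (c * C)) := by
    rw [hA]
    field_simp
    ring
  linarith

end Pool.Agent.LR.B4
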