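import Pool.Agent.LR.Defs

/-!
# LR-B4-BUMP: logarithmic test functions

`W z = ∑ j ∈ range k, η ((2^j R)⁻¹ • z)` with a bump function `η`.  The gradients of different
terms have disjoint supports and the Dirichlet integral is invariant under scaling.
-/

set_option autoImplicit false

noncomputable section

open scoped BigOperators Topology
open MeasureTheory Filter Set

namespace Pool.Agent.LR.B4

/-- the bump function -/
private def eta : ContDiffBump (0 : P) := ⟨1, 2, by norm_num, by norm_num⟩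

private theorem eta_cd : ContDiff ℝ 2 (eta : P → ℝ) := eta.contDiff

private theorem eta_fderiv_one (z : P) (hz : ‖z‖ ≤ 1) : fderiv ℝ (eta : P → ℝ) z = 0 := by
  apply IsLocalMax.fderiv_eq_zero
  have h1 : (eta : P → ℝ) z = 1 := eta.one_of_mem_closedBall (by
    rw [Metric.mem_closedBall, dist_zero_right]
    exact hz)
  exact Eventually.of_forall fun w => by
    show (eta : P → ℝ) w ≤ (eta : P → ℝ) z
    rw [h1]
    exact eta.le_one

private theorem eta_fderiv_two (z : P) (hz : 2 ≤ ‖z‖) : fderiv ℝ (eta : P → ℝ) z = 0 := by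
  apply IsLocalMin.fderiv_eq_zero
  have h1 : (eta : P → ℝ) z = 0 := eta.zero_of_le_dist (by
    rw [dist_zero_right]
    exact hz)
  exact Eventually.of_forall fun w => by
    show (eta : P → ℝ) z ≤ (eta : P → ℝ) w
    rw [h1]
    exact eta.nonneg

private theorem etac_fderiv (c : ℝ) (z v : P) :
    fderiv ℝ (fun w : P => (eta : P → ℝ) (c • w)) z v = c * fderiv ℝ (eta : P → ℝ) (c • z) v := by
  have h1 : HasFDerivAt (eta : P → ℝ) (fderiv ℝ (eta : P → ℝ) (c • z)) (c • z) :=
    ((eta_cd.differentiable (by norm_num)) _).hasFDerivAt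
  have h2 : HasFDerivAt (fun w : P => c • w) (c • ContinuousLinearMap.id ℝ P) z :=
    (hasFDerivAt_id z).const_smul c
  have h3 := h1.comp z h2
  have h4 : fderiv ℝ (fun w : P => (eta : P → ℝ) (c • w)) z = _ := h3.fderiv
  rw [h4]
  simp

private theorem etac_ne (c : ℝ) (hc : 0 < c) (z v : P)
    (h : fderiv ℝ (fun w : P => (eta : P → ℝ) (c • w)) z v ≠ 0) : 1 < c * ‖z‖ ∧ c * ‖z‖ < 2 := by
  rw [etac_fderiv] at h
  have h1 : fderiv ℝ (eta : P → ℝ) (c • z) ≠ 0 := by
    intro h0
    rw [h0] at h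
    simp at h
  have h2 : ‖c • z‖ = c * ‖z‖ := by rw [norm_smul, Real.norm_eq_abs, abs_of_pos hc]
  constructor
  · by_contra hle
    push Not at hle
    exact h1 (eta_fderiv_one _ (by rw [h2]; exact hle))
  · by_contra hle
    push Not at hle
    exact h1 (eta_fderiv_two _ (by rw [h2]; exact hle))

private theorem gsq_etac (c : ℝ) (z : P) :
    gsq (fun w : P => (eta : P → ℝ) (c • w)) z = c ^ 2 * gsq (eta : P → ℝ) (c • z) := by
  unfold gsq
  rw [etac_fderiv, etac_fderiv]
  ring

private theorem gsq_eta_cont : Continuous (gsq (eta : P → ℝ)) := by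
  unfold gsq
  have h : Continuous (fderiv ℝ (eta : P → ℝ)) := eta_cd.continuous_fderiv (by norm_num)
  fun_prop

private theorem gsq_eta_int : Integrable (gsq (eta : P → ℝ)) := by
  apply gsq_eta_cont.integrable_of_hasCompactSupport
  apply HasCompactSupport.intro (K := Metric.closedBall (0 : P) 2) (isCompact_closedBall 0 2)
  intro z hz
  rw [Metric.mem_closedBall, dist_zero_right] at hz
  push Not at hz
  unfold gsq
  rw [eta_fderiv_two z hz.le]
  simp

private theorem gsq_etac_int (c : ℝ) (hc : 0 < c) :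
    Integrable (gsq (fun w : P => (eta : P → ℝ) (c • w))) := by
  have h1 : gsq (fun w : P => (eta : P → ℝ) (c • w)) =
      fun z => c ^ 2 * gsq (eta : P → ℝ) (c • z) := funext fun z => gsq_etac c z
  rw [h1]
  exact (gsq_eta_int.comp_smul hc.ne').const_mul _

private theorem gsq_etac_integral (c : ℝ) (hc : 0 < c) :
    ∫ z, gsq (fun w : P => (eta : P → ℝ) (c • w)) z = ∫ z, gsq (eta : P → ℝ) z := by
  have h1 : gsq (fun w : P => (eta : P → ℝ) (c • w)) =
      fun z => c ^ 2 * gsq (eta : P → ℝ) (c • z) := funext fun z => gsq_etac c z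
  have h2 : Module.finrank ℝ P = 2 := by
    rw [Module.finrank_prod, Module.finrank_self]
  rw [h1, integral_const_mul, Measure.integral_comp_smul, h2, smul_eq_mul,
    abs_of_pos (by positivity), ← mul_assoc, mul_inv_cancel₀ (by positivity), one_mul]

private theorem gsq_nonneg (H : P → ℝ) (z : P) : 0 ≤ gsq H z := by
  unfold gsq
  positivity

/-- square of a sum of orthogonal terms -/
private theorem sum_sq (s : Finset ℕ) (a : ℕ → ℝ)
    (h : ∀ i ∈ s, ∀ j ∈ s, i ≠ j → a i * a j = 0) : (∑ i ∈ s, a i) ^ 2 = ∑ i ∈ s, a i ^ 2 := by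
  rw [pow_two, Finset.sum_mul_sum]
  refine Finset.sum_congr rfl fun i hi => ?_
  rw [Finset.sum_eq_single i]
  · ring
  · intro j hj hne
    exact h i hi j hj (Ne.symm hne)
  · intro hni
    exact absurd hi hni

theorem bump : ∃ C : ℝ, 0 < C ∧ ∀ R : ℝ, 0 < R → ∀ k : ℕ, ∃ W : P → ℝ, ContDiff ℝ 2 W ∧
    (∀ z : P, |z.1| ≤ R → |z.2| ≤ R → W z = k) ∧
    (∀ z : P, W z ≠ 0 → |z.1| ≤ 2 ^ k * R ∧ |z.2| ≤ 2 ^ k * R) ∧
    (∀ z : P, gsq W z ≠ 0 → |z.1| ≤ 2 ^ k * R ∧ |z.2| ≤ 2 ^ k * R) ∧
    Integrable (gsq W) ∧ ∫ z, gsq W z ≤ C * k := by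
  refine ⟨(∫ z, gsq (eta : P → ℝ) z) + 1, ?_, ?_⟩
  · have : 0 ≤ ∫ z, gsq (eta : P → ℝ) z := integral_nonneg fun z => gsq_nonneg (eta : P → ℝ) z
    linarith
  intro R hR k
  set c : ℕ → ℝ := fun j => (2 ^ j * R)⁻¹ with hc
  have hcpos : ∀ j, 0 < c j := fun j => by
    simp only [hc]
    positivity
  set E : ℕ → P → ℝ := fun j w => (eta : P → ℝ) (c j • w) with hE
  have hEcd : ∀ j, ContDiff ℝ 2 (E j) := fun j => eta_cd.comp (contDiff_const_smul (c j))
  -- norms
  have hn1 : ∀ z : P, |z.1| ≤ ‖z‖ := fun z => by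
    have := norm_fst_le z
    rwa [Real.norm_eq_abs] at this
  have hn2 : ∀ z : P, |z.2| ≤ ‖z‖ := fun z => by
    have := norm_snd_le z
    rwa [Real.norm_eq_abs] at this
  have hnle : ∀ z : P, ‖z‖ ≤ 2 ^ k * R → |z.1| ≤ 2 ^ k * R ∧ |z.2| ≤ 2 ^ k * R := fun z hz =>
    ⟨(hn1 z).trans hz, (hn2 z).trans hz⟩
  have hcm : ∀ (j : ℕ) (x : ℝ), c j * x < 2 → x < 2 ^ (j + 1) * R := by
    intro j x hx
    have h1 : 0 < 2 ^ j * R := by positivity
    simp only [hc] at hx
    rw [inv_mul_lt_iff₀ h1] at hx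
    rw [pow_succ]
    linarith
  have hcM : ∀ (j : ℕ) (x : ℝ), 1 < c j * x → 2 ^ j * R < x := by
    intro j x hx
    have h1 : 0 < 2 ^ j * R := by positivity
    simp only [hc] at hx
    rw [lt_inv_mul_iff₀ h1] at hx
    linarith
  have hpow : ∀ {i j : ℕ}, i ≤ j → (2 : ℝ) ^ i * R ≤ 2 ^ j * R := fun h =>
    mul_le_mul_of_nonneg_right (pow_le_pow_right₀ (by norm_num) h) hR.le
  -- the function
  set W : P → ℝ := fun z => ∑ j ∈ Finset.range k, E j z with hW
  have hfd : ∀ z v, fderiv ℝ W z v = ∑ j ∈ Finset.range k, fderiv ℝ (E j) z v := by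
    intro z v
    have h1 : fderiv ℝ W z = ∑ j ∈ Finset.range k, fderiv ℝ (E j) z := by
      have h2 : HasFDerivAt W (∑ j ∈ Finset.range k, fderiv ℝ (E j) z) z := by
        apply HasFDerivAt.fun_sum
        intro j _
        exact (((hEcd j).differentiable (by norm_num)) z).hasFDerivAt
      exact h2.fderiv
    rw [h1, sum_apply]
  have hne : ∀ (j : ℕ) (z v : P), fderiv ℝ (E j) z v ≠ 0 →
      2 ^ j * R < ‖z‖ ∧ ‖z‖ < 2 ^ (j + 1) * R := by
    intro j z v h
    have h1 := etac_ne (c j) (hcpos j) z v h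
    exact ⟨hcM j _ h1.1, hcm j _ h1.2⟩
  have horth : ∀ (z v : P) (i j : ℕ), i ≠ j → fderiv ℝ (E i) z v * fderiv ℝ (E j) z v = 0 := by
    intro z v i j hij
    by_contra h0
    have h1 := hne i z v (left_ne_zero_of_mul h0)
    have h2 := hne j z v (right_ne_zero_of_mul h0)
    rcases lt_or_gt_of_ne hij with h | h
    · have := hpow (show i + 1 ≤ j from h)
      linarith [h1.2, h2.1]
    · have := hpow (show j + 1 ≤ i from h)
      linarith [h1.1, h2.2]
  have hgsq : gsq W = fun z => ∑ j ∈ Finset.range k, gsq (E j) z := by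
    funext z
    unfold gsq
    rw [hfd, hfd, sum_sq _ _ fun i _ j _ h => horth z (1, 0) i j h,
      sum_sq _ _ fun i _ j _ h => horth z (0, 1) i j h, ← Finset.sum_add_distrib]
  refine ⟨W, ?_, ?_, ?_, ?_, ?_, ?_⟩
  · exact ContDiff.sum fun j _ => hEcd j
  · intro z h1 h2
    have h3 : ‖z‖ ≤ R := by
      rw [Prod.norm_def]
      exact max_le (by rwa [Real.norm_eq_abs]) (by rwa [Real.norm_eq_abs])
    simp only [hW]
    rw [Finset.sum_congr rfl (g := fun _ => (1 : ℝ))]
    · simp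
    · intro j _
      apply eta.one_of_mem_closedBall
      rw [Metric.mem_closedBall, dist_zero_right, norm_smul, Real.norm_eq_abs,
        abs_of_pos (hcpos j)]
      show c j * ‖z‖ ≤ 1
      simp only [hc]
      rw [inv_mul_le_iff₀ (by positivity), mul_one]
      have h4 : (1 : ℝ) ≤ 2 ^ j := one_le_pow₀ (by norm_num)
      nlinarith
  · intro z hz
    simp only [hW] at hz
    obtain ⟨j, hj, h1⟩ := Finset.exists_ne_zero_of_sum_ne_zero hz
    apply hnle
    have h2 : ‖c j • z‖ < 2 := by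
      by_contra hle
      push Not at hle
      exact h1 (eta.zero_of_le_dist (by rw [dist_zero_right]; exact hle))
    rw [norm_smul, Real.norm_eq_abs, abs_of_pos (hcpos j)] at h2
    have h3 := hcm j _ h2
    exact h3.le.trans (hpow (Finset.mem_range.mp hj))
  · intro z hz
    rw [hgsq] at hz
    obtain ⟨j, hj, h1⟩ := Finset.exists_ne_zero_of_sum_ne_zero hz
    apply hnle
    have h2 : fderiv ℝ (E j) z (1, 0) ≠ 0 ∨ fderiv ℝ (E j) z (0, 1) ≠ 0 := by
      by_contra hcon
      push Not at hcon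
      apply h1
      unfold gsq
      rw [hcon.1, hcon.2]
      norm_num
    have h3 : ‖z‖ < 2 ^ (j + 1) * R := by
      rcases h2 with h2 | h2
      · exact (hne j z _ h2).2
      · exact (hne j z _ h2).2
    exact h3.le.trans (hpow (Finset.mem_range.mp hj))
  · rw [hgsq]
    exact integrable_finsetSum _ fun j _ => gsq_etac_int (c j) (hcpos j)
  · rw [hgsq, integral_finsetSum _ fun j _ => gsq_etac_int (c j) (hcpos j)]
    have h1 : ∑ j ∈ Finset.range k, ∫ z, gsq (E j) z =
        ∑ _j ∈ Finset.range k, ∫ z, gsq (eta : P → ℝ) z :=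
      Finset.sum_congr rfl fun j _ => gsq_etac_integral (c j) (hcpos j)
    rw [h1, Finset.sum_const, Finset.card_range, nsmul_eq_mul, add_mul, mul_comm]
    have : (0 : ℝ) ≤ 1 * k := by positivity
    linarith

end Pool.Agent.LR.B4
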