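import Pool.Agent.LR.B4.ChgDefs
import Pool.Agent.LR.B4.Blk

/-!
# LR-B4-CHG: block charges are macroscopic charges

PLAN.
* `pr_bq`: unfold `pr`, `bq`; exchange the sums; `avg B φ = (card B)⁻¹ * ∑_{x ∈ B} φ x`, `B ⊆ SS`.
* `bq_supp`: blocks are subsets of `SS`.
* `bq_sum`: `pr_bq` with `φ = 1` and all blocks nonempty (`blk_nonempty`).
* `bq_bd`: from `blk_card`: eventually `card ≥ δ² n² / 2` for all `i ∈ pin`, so `|bq| ≤ ∑ |c_i| * 2/(δ² n²)`.
* `bq_conv`: for `z` not on the boundary of any cell `i ∈ pin` (boundary = subset of finitely many lines, null set: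
  e.g. `z.1 ≠ z₀.1 + k δ`, `z.2 ≠ z₀.2 + k δ` for all integers `k`; countable union of null sets
  `{z | z.1 = t}`, measure of a product `{t} ×ˢ univ`): if `sc n (x n) → z` then for each `i`: `z ∈ cellP` (then in the
  interior) => eventually `cel z₀ δ n (x n) = i` and `x n ∈ SS` so `x n ∈ blk`; `z ∉ cellP` => eventually not.
  Then `n² * card⁻¹ → (δ²)⁻¹` by `blk_card` (`Tendsto.inv₀`).
-/

set_option autoImplicit false

noncomputable section

open scoped BigOperators Topology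
open MeasureTheory Filter Set

namespace Pool.Agent.LR.B4

private theorem avg_app (B : Finset V) (φ : V → ℝ) :
    avg B φ = (B.card : ℝ)⁻¹ * ∑ x ∈ B, φ x := by
  simp only [avg, LinearMap.smul_apply, LinearMap.sum_apply, smul_eq_mul]
  rfl

theorem pr_bq (z₀ : P) (ρ δ : ℝ) (c : V → ℝ) (n : ℕ) (φ : V → ℝ) :
    pr (SS z₀ ρ n) (bq z₀ ρ δ c n) φ = ∑ i ∈ pin z₀ ρ δ, c i * avg (blk z₀ ρ δ n i) φ := by
  simp only [pr, bq, Finset.sum_mul]
  rw [Finset.sum_comm]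
  refine Finset.sum_congr rfl fun i _ => ?_
  rw [avg_app]
  simp only [mul_assoc, ite_mul, zero_mul]
  rw [← Finset.mul_sum]
  congr 1
  rw [Finset.sum_ite_mem, Finset.inter_eq_right.2 (blk_sub (z₀ := z₀) (ρ := ρ) (δ := δ)),
    Finset.mul_sum]

theorem bq_supp (z₀ : P) (ρ δ : ℝ) (c : V → ℝ) (n : ℕ) : Supp (SS z₀ ρ n) (bq z₀ ρ δ c n) := by
  intro x hx
  refine Finset.sum_eq_zero fun i _ => ?_
  rw [if_neg (fun h => hx (blk_sub h)), mul_zero]

theorem bq_sum {z₀ : P} {ρ δ : ℝ} (hρ : 0 < ρ) (hδ : 0 < δ) (c : V → ℝ) :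
    ∀ᶠ n : ℕ in atTop, ∑ x ∈ SS z₀ ρ n, bq z₀ ρ δ c n x = ∑ i ∈ pin z₀ ρ δ, c i := by
  filter_upwards [blk_nonempty (z₀ := z₀) hρ hδ] with n hn
  have h := pr_bq z₀ ρ δ c n (fun _ => 1)
  simp only [pr, mul_one] at h
  rw [h]
  refine Finset.sum_congr rfl fun i hi => ?_
  rw [avg_app, Finset.sum_const, nsmul_eq_mul, mul_one, inv_mul_cancel₀, mul_one]
  exact_mod_cast (Finset.card_pos.2 (hn i hi)).ne'

theorem bq_bd {z₀ : P} {ρ δ : ℝ} (hρ : 0 < ρ) (hδ : 0 < δ) (c : V → ℝ) :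
    ∃ C : ℝ, ∀ᶠ n : ℕ in atTop, ∀ x, |bq z₀ ρ δ c n x| ≤ C / (n : ℝ) ^ 2 := by
  have hd2 : 0 < δ ^ 2 := by positivity
  refine ⟨∑ i ∈ pin z₀ ρ δ, |c i| * (2 / δ ^ 2), ?_⟩
  have h1 : ∀ᶠ n : ℕ in atTop, ∀ i ∈ pin z₀ ρ δ,
      δ ^ 2 / 2 < ((blk z₀ ρ δ n i).card : ℝ) / (n : ℝ) ^ 2 := by
    rw [Finset.eventually_all]
    intro i hi
    exact (blk_card hρ hδ hi).eventually_const_lt (by linarith)
  filter_upwards [h1, eventually_gt_atTop 0] with n hn hn0 x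
  have hnn : (0 : ℝ) < (n : ℝ) ^ 2 := by positivity
  rw [Finset.sum_div]
  refine (Finset.abs_sum_le_sum_abs _ _).trans (Finset.sum_le_sum fun i hi => ?_)
  rw [abs_mul, mul_div_assoc]
  refine mul_le_mul_of_nonneg_left ?_ (abs_nonneg _)
  have h2 := hn i hi
  have hc : 0 < ((blk z₀ ρ δ n i).card : ℝ) := by
    by_contra hcon
    have h3 : ((blk z₀ ρ δ n i).card : ℝ) / (n : ℝ) ^ 2 ≤ 0 :=
      div_nonpos_of_nonpos_of_nonneg (not_lt.1 hcon) hnn.le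
    linarith
  have h4 : 0 ≤ 2 / δ ^ 2 / (n : ℝ) ^ 2 := by positivity
  split_ifs with hx
  · rw [abs_of_pos (inv_pos.2 hc)]
    rw [lt_div_iff₀ hnn] at h2
    rw [div_div, inv_eq_one_div, div_le_div_iff₀ hc (by positivity)]
    nlinarith [h2]
  · rw [abs_zero]
    exact h4

/-- membership in a block in terms of the rescaled site -/
private theorem mem_blk_iff {z₀ : P} {ρ δ : ℝ} (hρ : 0 < ρ) (hδ : 0 < δ) {i : V}
    (hi : i ∈ pin z₀ ρ δ) {n : ℕ} (hn : 0 < n) (x : V) :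
    x ∈ blk z₀ ρ δ n i ↔
      (z₀.1 + i.1 * δ ≤ (sc n x).1 ∧ (sc n x).1 < z₀.1 + (i.1 + 1) * δ) ∧
      (z₀.2 + i.2 * δ ≤ (sc n x).2 ∧ (sc n x).2 < z₀.2 + (i.2 + 1) * δ) := by
  have hn' : (0 : ℝ) < n := by exact_mod_cast hn
  rw [blk_eq hρ hδ hi hn, Finset.mem_product, Finset.mem_Ico, Finset.mem_Ico, Int.ceil_le,
    Int.ceil_le, Int.lt_ceil, Int.lt_ceil]
  have e1 : ∀ t u : ℝ, (n : ℝ) * t ≤ u ↔ t ≤ u / n := by
    intro t u
    rw [le_div_iff₀ hn', mul_comm]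
  have e2 : ∀ t u : ℝ, u < (n : ℝ) * t ↔ u / n < t := by
    intro t u
    rw [div_lt_iff₀ hn', mul_comm]
  rw [e1, e1, e2, e2]
  rfl

private theorem ae_fst_ne (t : ℝ) : ∀ᵐ z : P, z.1 ≠ t := by
  have h : ∀ᵐ s : ℝ, s ≠ t := by
    rw [ae_iff]
    simp
  exact (Measure.quasiMeasurePreserving_fst (μ := (volume : Measure ℝ))
    (ν := (volume : Measure ℝ))).ae h

private theorem ae_snd_ne (t : ℝ) : ∀ᵐ z : P, z.2 ≠ t := by
  have h : ∀ᵐ s : ℝ, s ≠ t := by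
    rw [ae_iff]
    simp
  exact (Measure.quasiMeasurePreserving_snd (μ := (volume : Measure ℝ))
    (ν := (volume : Measure ℝ))).ae h

theorem bq_conv {z₀ : P} {ρ δ : ℝ} (hρ : 0 < ρ) (hδ : 0 < δ) (c : V → ℝ) :
    ∀ᵐ z : P, ∀ x : ℕ → V, Tendsto (fun n => sc n (x n)) atTop (𝓝 z) →
      Tendsto (fun n : ℕ => (n : ℝ) ^ 2 * bq z₀ ρ δ c n (x n)) atTop (𝓝 (bF z₀ ρ δ c z)) := by
  classical
  have ha : ∀ᵐ z : P, ∀ k : ℤ, z.1 ≠ z₀.1 + k * δ := ae_all_iff.2 fun k => ae_fst_ne _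
  have hb : ∀ᵐ z : P, ∀ k : ℤ, z.2 ≠ z₀.2 + k * δ := ae_all_iff.2 fun k => ae_snd_ne _
  filter_upwards [ha, hb] with z hz1 hz2 x hx
  have hx1 : Tendsto (fun n => (sc n (x n)).1) atTop (𝓝 z.1) :=
    (continuous_fst.tendsto z).comp hx
  have hx2 : Tendsto (fun n => (sc n (x n)).2) atTop (𝓝 z.2) :=
    (continuous_snd.tendsto z).comp hx
  have e : (fun n : ℕ => (n : ℝ) ^ 2 * bq z₀ ρ δ c n (x n)) = fun n : ℕ =>
      ∑ i ∈ pin z₀ ρ δ, c i * ((n : ℝ) ^ 2 *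
        (if x n ∈ blk z₀ ρ δ n i then ((blk z₀ ρ δ n i).card : ℝ)⁻¹ else 0)) := by
    funext n
    rw [bq, Finset.mul_sum]
    refine Finset.sum_congr rfl fun i _ => ?_
    ring
  rw [e, bF]
  refine tendsto_finset_sum _ fun i hi => Tendsto.const_mul _ ?_
  by_cases hz : z ∈ cellP z₀ δ i
  · rw [if_pos hz]
    have hz' := hz
    rw [cellP, rct, Set.mem_prod, Set.mem_Icc, Set.mem_Icc] at hz'
    obtain ⟨⟨h1, h2⟩, h3, h4⟩ := hz'
    have h1' : z₀.1 + i.1 * δ < z.1 := lt_of_le_of_ne h1 (hz1 i.1).symm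
    have h3' : z₀.2 + i.2 * δ < z.2 := lt_of_le_of_ne h3 (hz2 i.2).symm
    have h2' : z.1 < z₀.1 + (i.1 + 1) * δ := by
      refine lt_of_le_of_ne h2 ?_
      have := hz1 (i.1 + 1)
      push_cast at this
      exact this
    have h4' : z.2 < z₀.2 + (i.2 + 1) * δ := by
      refine lt_of_le_of_ne h4 ?_
      have := hz2 (i.2 + 1)
      push_cast at this
      exact this
    have hlim : Tendsto (fun n : ℕ => (((blk z₀ ρ δ n i).card : ℝ) / (n : ℝ) ^ 2)⁻¹) atTop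
        (𝓝 (δ ^ 2)⁻¹) := (blk_card hρ hδ hi).inv₀ (by positivity)
    refine hlim.congr' ?_
    filter_upwards [hx1.eventually_const_lt h1', hx1.eventually_lt_const h2',
      hx2.eventually_const_lt h3', hx2.eventually_lt_const h4', eventually_gt_atTop 0] with
      n a1 a2 a3 a4 hn
    rw [if_pos ((mem_blk_iff hρ hδ hi hn (x n)).2 ⟨⟨a1.le, a2⟩, a3.le, a4⟩), inv_div,
      div_eq_mul_inv]
  · rw [if_neg hz]
    have hev : ∀ᶠ n : ℕ in atTop, x n ∉ blk z₀ ρ δ n i := by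
      have hcase : z.1 < z₀.1 + i.1 * δ ∨ z₀.1 + (i.1 + 1) * δ < z.1 ∨
          z.2 < z₀.2 + i.2 * δ ∨ z₀.2 + (i.2 + 1) * δ < z.2 := by
        by_contra hcon
        push_neg at hcon
        obtain ⟨h1, h2, h3, h4⟩ := hcon
        exact hz ⟨⟨h1, h2⟩, h3, h4⟩
      rcases hcase with h | h | h | h
      · filter_upwards [hx1.eventually_lt_const h, eventually_gt_atTop 0] with n a hn hmem
        exact absurd ((mem_blk_iff hρ hδ hi hn (x n)).1 hmem).1.1 (not_le.2 a)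
      · filter_upwards [hx1.eventually_const_lt h, eventually_gt_atTop 0] with n a hn hmem
        exact absurd ((mem_blk_iff hρ hδ hi hn (x n)).1 hmem).1.2 (not_lt.2 a.le)
      · filter_upwards [hx2.eventually_lt_const h, eventually_gt_atTop 0] with n a hn hmem
        exact absurd ((mem_blk_iff hρ hδ hi hn (x n)).1 hmem).2.1 (not_le.2 a)
      · filter_upwards [hx2.eventually_const_lt h, eventually_gt_atTop 0] with n a hn hmem
        exact absurd ((mem_blk_iff hρ hδ hi hn (x n)).1 hmem).2.2 (not_lt.2 a.le)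
    refine tendsto_const_nhds.congr' ?_
    filter_upwards [hev] with n hn
    rw [if_neg hn, mul_zero]

end Pool.Agent.LR.B4
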