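import Pool.Agent.LR.B4.Chg

/-!
# LR-B4-CONV: `ChgConv` for neutral block charges and for reflected block charges

PLAN. `n₀` from `bq_sum`, `bq_bd`. `q n = if n₀ ≤ n ∧ 0 < n then bq .. n else 0` (so that all the for all n fields hold).
* chg1: `bx (z₀.1 - 13ρ) .. = SS z₀ ρ n` by definition. conv: `bq_conv` with `x n = (⌊n z.1⌋, ⌊n z.2⌋)`,
  `⌊n t⌋/n → t`.
* chg2: `g n = bq n`, `q n x = g n x - g n (refV (p n) x)`. supp: `SS z₀ ρ n ⊆ bx (-3p) (5p) (-4p) (4p) n` for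
  `p ≥ |z₀.1| + |z₀.2| + 13 ρ`, and the big box is mapped to itself by `refV (p n)` (`⌈n * -(3p)⌉ = -3pn` etc. are integers;
  `p : ℕ`). neut: reindex the second sum by the involution (`Finset.sum_nbij'`/`Finset.sum_bij`). bd: `2C`. conv: for a.e. `z`
  both `z` and `refP p z` are good for `bq_conv` (`refP p` is measure preserving:
  `(measurePreserving_sub_left ..).prod (MeasurePreserving.id _)`, `.quasiMeasurePreserving.ae`), and
  `sc n (refV (p n) (⌊n z.1⌋, ⌊n z.2⌋)) → refP p z`.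
-/

set_option autoImplicit false

noncomputable section

open scoped BigOperators Topology
open MeasureTheory Filter Set

namespace Pool.Agent.LR.B4

private lemma mem_bx {a b c d : ℝ} {n : ℕ} {x : V} :
    x ∈ bx a b c d n ↔ ((n * a ≤ (x.1 : ℝ) ∧ (x.1 : ℝ) ≤ n * b) ∧
      (n * c ≤ (x.2 : ℝ) ∧ (x.2 : ℝ) ≤ n * d)) := by
  rw [bx, Finset.mem_product, Finset.mem_Icc, Finset.mem_Icc, Int.ceil_le, Int.le_floor,
    Int.ceil_le, Int.le_floor]

private lemma tendsto_floor (t : ℝ) :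
    Tendsto (fun n : ℕ => ((⌊(n : ℝ) * t⌋ : ℤ) : ℝ) / n) atTop (𝓝 t) := by
  have h0 : Tendsto (fun n : ℕ => t - 1 / (n : ℝ)) atTop (𝓝 t) := by
    have := (tendsto_const_nhds (x := t)).sub (tendsto_one_div_atTop_nhds_zero_nat (𝕜 := ℝ))
    simpa using this
  refine tendsto_of_tendsto_of_tendsto_of_le_of_le' h0 tendsto_const_nhds ?_ ?_
  · filter_upwards [eventually_gt_atTop 0] with n hn
    have hn' : (0 : ℝ) < n := by exact_mod_cast hn
    rw [le_div_iff₀ hn', sub_mul, one_div, inv_mul_cancel₀ hn'.ne', mul_comm]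
    exact (Int.sub_one_lt_floor _).le
  · filter_upwards [eventually_gt_atTop 0] with n hn
    have hn' : (0 : ℝ) < n := by exact_mod_cast hn
    rw [div_le_iff₀ hn', mul_comm t]
    exact Int.floor_le _

private lemma sc_floor (z : P) :
    Tendsto (fun n : ℕ => sc n (⌊(n : ℝ) * z.1⌋, ⌊(n : ℝ) * z.2⌋)) atTop (𝓝 z) := by
  have h := (tendsto_floor z.1).prodMk_nhds (tendsto_floor z.2)
  exact h

private lemma sc_ref_floor (p : ℕ) (z : P) :
    Tendsto (fun n : ℕ => sc n (refV (p * n : ℕ) (⌊(n : ℝ) * z.1⌋, ⌊(n : ℝ) * z.2⌋))) atTop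
      (𝓝 (refP p z)) := by
  have h1 : Tendsto (fun n : ℕ => 2 * (p : ℝ) - ((⌊(n : ℝ) * z.1⌋ : ℤ) : ℝ) / n) atTop
      (𝓝 (2 * (p : ℝ) - z.1)) := tendsto_const_nhds.sub (tendsto_floor z.1)
  have h := h1.prodMk_nhds (tendsto_floor z.2)
  refine h.congr' ?_
  filter_upwards [eventually_gt_atTop 0] with n hn
  have hn' : (n : ℝ) ≠ 0 := by
    have : (0 : ℝ) < n := by exact_mod_cast hn
    exact this.ne'
  refine Prod.ext ?_ rfl
  simp only [sc, refV]
  push_cast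
  field_simp

theorem chg1 {z₀ : P} {ρ δ : ℝ} (hρ : 0 < ρ) (hδ : 0 < δ) (c : V → ℝ)
    (hc : ∑ i ∈ pin z₀ ρ δ, c i = 0) :
    ∃ q : ℕ → V → ℝ,
      ChgConv (z₀.1 - 13 * ρ) (z₀.1 + 13 * ρ) (z₀.2 - 13 * ρ) (z₀.2 + 13 * ρ) q (bF z₀ ρ δ c) ∧
      ∀ᶠ n in atTop, q n = bq z₀ ρ δ c n := by
  obtain ⟨C, hC⟩ := bq_bd (z₀ := z₀) hρ hδ c
  obtain ⟨n₀, hn₀⟩ := eventually_atTop.1
    ((bq_sum (z₀ := z₀) hρ hδ c).and (hC.and (eventually_gt_atTop 0)))
  have hev : ∀ᶠ n : ℕ in atTop, (if n₀ ≤ n then bq z₀ ρ δ c n else 0) = bq z₀ ρ δ c n := by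
    filter_upwards [eventually_ge_atTop n₀] with n hn
    rw [if_pos hn]
  refine ⟨fun n => if n₀ ≤ n then bq z₀ ρ δ c n else 0, ⟨?_, ?_, ?_, ?_⟩, hev⟩
  · intro n
    by_cases h : n₀ ≤ n
    · simp only [if_pos h]
      exact bq_supp z₀ ρ δ c n
    · simp only [if_neg h]
      intro x _
      rfl
  · refine ⟨max C 0, fun n x => ?_⟩
    by_cases h : n₀ ≤ n
    · simp only [if_pos h]
      refine ((hn₀ n h).2.1 x).trans ?_
      exact div_le_div_of_nonneg_right (le_max_left _ _) (by positivity)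
    · simp only [if_neg h, Pi.zero_apply, abs_zero]
      exact div_nonneg (le_max_right _ _) (by positivity)
  · filter_upwards [bq_conv (z₀ := z₀) hρ hδ c] with z hz
    refine (hz _ (sc_floor z)).congr' ?_
    filter_upwards [hev] with n hn
    rw [hn]
  · intro n
    by_cases h : n₀ ≤ n
    · simp only [if_pos h]
      have h1 := (hn₀ n h).1
      rw [hc] at h1
      exact h1
    · simp only [if_neg h, Pi.zero_apply, Finset.sum_const_zero]

/-- Geometry of the big box `S'_n = bx (-3p) (5p) (-4p) (4p) n`, mirror `x₁ = p n`. -/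
theorem big_box {z₀ : P} {ρ : ℝ} (hρ : 0 < ρ) (p : ℕ) (hp : |z₀.1| + |z₀.2| + 13 * ρ < p)
    {n : ℕ} (hn : 0 < n) :
    SS z₀ ρ n ⊆ (bx (-(3 * (p : ℝ))) (5 * p) (-(4 * (p : ℝ))) (4 * p) n).filter
        (fun x => x.1 < (p * n : ℕ)) ∧
      (∀ x ∈ bx (-(3 * (p : ℝ))) (5 * p) (-(4 * (p : ℝ))) (4 * p) n,
        refV (p * n : ℕ) x ∈ bx (-(3 * (p : ℝ))) (5 * p) (-(4 * (p : ℝ))) (4 * p) n) ∧
      (((p * n : ℕ) : ℤ), (0 : ℤ)) ∈ bx (-(3 * (p : ℝ))) (5 * p) (-(4 * (p : ℝ))) (4 * p) n := by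
  have hn' : (0 : ℝ) < n := by exact_mod_cast hn
  have hp0 : (0 : ℝ) ≤ p := Nat.cast_nonneg p
  have a1 := abs_nonneg z₀.1
  have a2 := abs_nonneg z₀.2
  have b1 := neg_abs_le z₀.1
  have b2 := neg_abs_le z₀.2
  have c1 := le_abs_self z₀.1
  have c2 := le_abs_self z₀.2
  have hnp : 0 ≤ (n : ℝ) * p := by positivity
  refine ⟨fun x hx => ?_, fun x hx => ?_, ?_⟩
  · rw [SS, mem_bx] at hx
    obtain ⟨⟨h1, h2⟩, h3, h4⟩ := hx
    have e1 : (n : ℝ) * (-(p : ℝ)) ≤ x.1 :=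
      (mul_le_mul_of_nonneg_left (by linarith) hn'.le).trans h1
    have e2 : (x.1 : ℝ) < n * p :=
      h2.trans_lt (mul_lt_mul_of_pos_left (by linarith) hn')
    have e3 : (n : ℝ) * (-(p : ℝ)) ≤ x.2 :=
      (mul_le_mul_of_nonneg_left (by linarith) hn'.le).trans h3
    have e4 : (x.2 : ℝ) ≤ n * p :=
      h4.trans (mul_le_mul_of_nonneg_left (by linarith) hn'.le)
    rw [Finset.mem_filter, mem_bx]
    refine ⟨⟨⟨?_, ?_⟩, ?_, ?_⟩, ?_⟩
    · nlinarith
    · nlinarith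
    · nlinarith
    · nlinarith
    · have : (x.1 : ℝ) < ((p * n : ℕ) : ℝ) := by push_cast; linarith
      exact_mod_cast this
  · rw [mem_bx] at hx ⊢
    obtain ⟨⟨h1, h2⟩, h3, h4⟩ := hx
    simp only [refV]
    push_cast
    refine ⟨⟨?_, ?_⟩, ?_, ?_⟩
    · nlinarith
    · nlinarith
    · linarith
    · linarith
  · rw [mem_bx]
    push_cast
    refine ⟨⟨?_, ?_⟩, ?_, ?_⟩
    · nlinarith
    · nlinarith
    · nlinarith
    · nlinarith

private lemma refV_refV (m : ℤ) (x : V) : refV m (refV m x) = x := by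
  refine Prod.ext ?_ rfl
  simp only [refV]
  ring

private lemma refP_mp (p : ℝ) : MeasurePreserving (refP p) (volume : Measure P) volume := by
  have h1 : MeasurePreserving (fun t : ℝ => 2 * p - t) (volume : Measure ℝ) volume :=
    Measure.measurePreserving_sub_left volume (2 * p)
  exact h1.prod (MeasurePreserving.id (volume : Measure ℝ))

theorem chg2 {z₀ : P} {ρ δ : ℝ} (hρ : 0 < ρ) (hδ : 0 < δ) (c : V → ℝ) (p : ℕ)
    (hp : |z₀.1| + |z₀.2| + 13 * ρ < p) :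
    ∃ q : ℕ → V → ℝ,
      ChgConv (-(3 * (p : ℝ))) (5 * p) (-(4 * (p : ℝ))) (4 * p) q
        (fun z => bF z₀ ρ δ c z - bF z₀ ρ δ c (refP p z)) ∧
      ∀ᶠ n : ℕ in atTop, q n = fun x => bq z₀ ρ δ c n x - bq z₀ ρ δ c n (refV (p * n : ℕ) x) := by
  obtain ⟨C, hC⟩ := bq_bd (z₀ := z₀) hρ hδ c
  obtain ⟨n₀, hn₀⟩ := eventually_atTop.1 (hC.and (eventually_gt_atTop 0))
  set g : ℕ → V → ℝ := fun n x => bq z₀ ρ δ c n x - bq z₀ ρ δ c n (refV (p * n : ℕ) x) with hg
  have hev : ∀ᶠ n : ℕ in atTop, (if n₀ ≤ n then g n else 0) = g n := by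
    filter_upwards [eventually_ge_atTop n₀] with n hn
    rw [if_pos hn]
  refine ⟨fun n => if n₀ ≤ n then g n else 0, ⟨?_, ?_, ?_, ?_⟩, hev⟩
  · intro n
    by_cases h : n₀ ≤ n
    · simp only [if_pos h]
      obtain ⟨g1, g2, _⟩ := big_box hρ p hp (hn₀ n h).2
      intro x hx
      have e1 : bq z₀ ρ δ c n x = 0 :=
        bq_supp z₀ ρ δ c n x fun hx' => hx (Finset.mem_filter.1 (g1 hx')).1
      have e2 : bq z₀ ρ δ c n (refV (p * n : ℕ) x) = 0 := by
        refine bq_supp z₀ ρ δ c n _ fun hx' => hx ?_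
        have := g2 _ (Finset.mem_filter.1 (g1 hx')).1
        rwa [refV_refV] at this
      simp only [hg, e1, e2, sub_zero]
    · simp only [if_neg h]
      intro x _
      rfl
  · refine ⟨max (2 * C) 0, fun n x => ?_⟩
    by_cases h : n₀ ≤ n
    · simp only [if_pos h, hg]
      have e1 := (hn₀ n h).1 x
      have e2 := (hn₀ n h).1 (refV (p * n : ℕ) x)
      have e3 : (max (2 * C) 0) / (n : ℝ) ^ 2 ≥ (2 * C) / (n : ℝ) ^ 2 :=
        div_le_div_of_nonneg_right (le_max_left _ _) (by positivity)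
      have e4 : (2 * C) / (n : ℝ) ^ 2 = C / (n : ℝ) ^ 2 + C / (n : ℝ) ^ 2 := by ring
      have e5 := abs_sub (bq z₀ ρ δ c n x) (bq z₀ ρ δ c n (refV (p * n : ℕ) x))
      linarith
    · simp only [if_neg h, Pi.zero_apply, abs_zero]
      exact div_nonneg (le_max_right _ _) (by positivity)
  · have hb := bq_conv (z₀ := z₀) hρ hδ c
    filter_upwards [hb, (refP_mp (p : ℝ)).quasiMeasurePreserving.ae hb] with z hz hz'
    have h1 := hz _ (sc_floor z)
    have h2 := hz' _ (sc_ref_floor p z)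
    refine (h1.sub h2).congr' ?_
    filter_upwards [hev] with n hn
    rw [hn]
    simp only [hg]
    ring
  · intro n
    by_cases h : n₀ ≤ n
    · simp only [if_pos h, hg]
      obtain ⟨_, g2, _⟩ := big_box hρ p hp (hn₀ n h).2
      rw [Finset.sum_sub_distrib, sub_eq_zero]
      refine Finset.sum_nbij' (fun x => refV (p * n : ℕ) x) (fun x => refV (p * n : ℕ) x)
        (fun x hx => g2 x hx) (fun x hx => g2 x hx) (fun x _ => refV_refV _ x)
        (fun x _ => refV_refV _ x) (fun x _ => ?_)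
      rw [refV_refV]
    · simp only [if_neg h, Pi.zero_apply, Finset.sum_const_zero]

end Pool.Agent.LR.B4
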