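import Pool.Agent.LR.B4.ChgDefs

/-!
# LR-B4-DEN: the density of a block charge

PLAN. `cellP z₀ δ i = Icc .. ×ˢ Icc ..` is measurable with volume `δ * δ` (`Real.volume_Icc`, `Measure.volume_eq_prod`,
`Measure.prod_prod`). `bF` = finite sum of `indicator`s times constants: integrable (`Integrable.indicator`/
`integrable_finset_sum`), integral `∑ c_i (δ²)⁻¹ δ² = ∑ c_i` (`integral_finset_sum`, `integral_const_mul`,
`integral_indicator`, `setIntegral_const`). `bF_supp`: cells of `pin` lie in `{|z - z₀| ≤ 6ρ}` (shells `a ≤ 5`).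
`bF_mul`: pointwise `bF z * H z = 0`: either all indicators vanish or `z` is in some pinned cell and `H z = 0`.
-/

set_option autoImplicit false

noncomputable section

open scoped BigOperators Topology
open MeasureTheory Filter Set

namespace Pool.Agent.LR.B4

private theorem meas_cell (z₀ : P) (δ : ℝ) (i : V) : MeasurableSet (cellP z₀ δ i) :=
  measurableSet_Icc.prod measurableSet_Icc

private theorem vol_cell (z₀ : P) {δ : ℝ} (hδ : 0 < δ) (i : V) :
    volume (cellP z₀ δ i) = ENNReal.ofReal (δ ^ 2) := by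
  unfold cellP rct
  rw [Measure.volume_eq_prod, Measure.prod_prod, Real.volume_Icc, Real.volume_Icc,
    ← ENNReal.ofReal_mul]
  · congr 1
    ring
  · have : z₀.1 + (↑i.1 + 1) * δ - (z₀.1 + ↑i.1 * δ) = δ := by ring
    rw [this]
    exact hδ.le

open Classical in
private theorem term_eq (z₀ : P) (δ : ℝ) (c : V → ℝ) (i : V) :
    (fun z => c i * (if z ∈ cellP z₀ δ i then (δ ^ 2)⁻¹ else 0)) =
      fun z => c i * (cellP z₀ δ i).indicator (fun _ => (δ ^ 2)⁻¹) z := by
  funext z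
  by_cases h : z ∈ cellP z₀ δ i
  · rw [if_pos h, Set.indicator_of_mem h]
  · rw [if_neg h, Set.indicator_of_notMem h]

open Classical in
private theorem term_int (z₀ : P) {δ : ℝ} (hδ : 0 < δ) (c : V → ℝ) (i : V) :
    Integrable (fun z => c i * (if z ∈ cellP z₀ δ i then (δ ^ 2)⁻¹ else 0)) ∧
      ∫ z, c i * (if z ∈ cellP z₀ δ i then (δ ^ 2)⁻¹ else 0) = c i := by
  have hfin : volume (cellP z₀ δ i) ≠ ⊤ := by
    rw [vol_cell z₀ hδ i]
    exact ENNReal.ofReal_ne_top
  have hI : Integrable ((cellP z₀ δ i).indicator (fun _ : P => (δ ^ 2)⁻¹)) := by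
    rw [integrable_indicator_iff (meas_cell z₀ δ i)]
    exact integrableOn_const hfin
  constructor
  · rw [term_eq]
    exact hI.const_mul (c i)
  · rw [term_eq, integral_const_mul, integral_indicator (meas_cell z₀ δ i), setIntegral_const,
      Measure.real, vol_cell z₀ hδ i, ENNReal.toReal_ofReal (by positivity), smul_eq_mul,
      mul_inv_cancel₀ (by positivity), mul_one]

theorem bF_int (z₀ : P) (ρ : ℝ) {δ : ℝ} (hδ : 0 < δ) (c : V → ℝ) :
    Integrable (bF z₀ ρ δ c) ∧ ∫ z, bF z₀ ρ δ c z = ∑ i ∈ pin z₀ ρ δ, c i := by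
  classical
  have hfun : bF z₀ ρ δ c =
      fun z => ∑ i ∈ pin z₀ ρ δ, c i * (if z ∈ cellP z₀ δ i then (δ ^ 2)⁻¹ else 0) := by
    funext z
    unfold bF
    refine Finset.sum_congr rfl fun i _ => ?_
    by_cases h : z ∈ cellP z₀ δ i
    · rw [if_pos h]
    · rw [if_neg h]
  rw [hfun]
  constructor
  · exact integrable_finsetSum _ fun i _ => (term_int z₀ hδ c i).1
  · rw [integral_finsetSum _ fun i _ => (term_int z₀ hδ c i).1]
    exact Finset.sum_congr rfl fun i _ => (term_int z₀ hδ c i).2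

theorem bF_supp {z₀ : P} {ρ δ : ℝ} (hρ : 0 < ρ) (hδ : 0 < δ) (c : V → ℝ) (z : P)
    (hz : bF z₀ ρ δ c z ≠ 0) :
    |z.1| ≤ |z₀.1| + |z₀.2| + 6 * ρ ∧ |z.2| ≤ |z₀.1| + |z₀.2| + 6 * ρ := by
  classical
  have h1 : ∃ i ∈ pin z₀ ρ δ, z ∈ cellP z₀ δ i := by
    by_contra hcon
    apply hz
    unfold bF
    refine Finset.sum_eq_zero fun i hi => ?_
    rw [if_neg (fun h => hcon ⟨i, hi, h⟩), mul_zero]
  obtain ⟨i, hi, hzi⟩ := h1
  unfold pin at hi
  rw [Finset.mem_filter] at hi
  have h2 : lenP (z - z₀) ≤ 6 * ρ := by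
    rcases hi.2 with h | h | h
    · have := (h hzi).2
      push_cast at this
      linarith
    · have := (h hzi).2
      push_cast at this
      linarith
    · have := (h hzi).2
      push_cast at this
      linarith
  have h3 : |(z - z₀).1| ≤ lenP (z - z₀) := by
    unfold lenP
    apply Real.le_sqrt_of_sq_le
    rw [sq_abs]
    nlinarith [sq_nonneg (z - z₀).2]
  have h4 : |(z - z₀).2| ≤ lenP (z - z₀) := by
    unfold lenP
    apply Real.le_sqrt_of_sq_le
    rw [sq_abs]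
    nlinarith [sq_nonneg (z - z₀).1]
  have h5 : |z.1| ≤ |z₀.1| + |(z - z₀).1| := by
    have : z.1 = z₀.1 + (z - z₀).1 := by
      rw [Prod.fst_sub]
      ring
    calc |z.1| = |z₀.1 + (z - z₀).1| := by rw [← this]
      _ ≤ _ := abs_add_le _ _
  have h6 : |z.2| ≤ |z₀.2| + |(z - z₀).2| := by
    have : z.2 = z₀.2 + (z - z₀).2 := by
      rw [Prod.snd_sub]
      ring
    calc |z.2| = |z₀.2 + (z - z₀).2| := by rw [← this]
      _ ≤ _ := abs_add_le _ _
  have h7 := abs_nonneg z₀.1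
  have h8 := abs_nonneg z₀.2
  constructor <;> linarith

theorem bF_mul {z₀ : P} {ρ δ : ℝ} (c : V → ℝ) (H : P → ℝ)
    (h0 : ∀ i ∈ pin z₀ ρ δ, ∀ z ∈ cellP z₀ δ i, H z = 0) (z : P) : bF z₀ ρ δ c z * H z = 0 := by
  by_cases h : ∃ i ∈ pin z₀ ρ δ, z ∈ cellP z₀ δ i
  · obtain ⟨i, hi, hzi⟩ := h
    rw [h0 i hi z hzi, mul_zero]
  · have : bF z₀ ρ δ c z = 0 := by
      unfold bF
      refine Finset.sum_eq_zero fun i hi => ?_
      rw [if_neg (fun h' => h ⟨i, hi, h'⟩), mul_zero]
    rw [this, zero_mul]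

end Pool.Agent.LR.B4
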