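import Pool.Agent.LR.B1.Rest
import Pool.Agent.LR.B2a.CharM
import Pool.Agent.LR.B2b.RPV
import Pool.Agent.LR.B3.CharFree
import Pool.Agent.LR.B4.Conv
import Pool.Agent.LR.B4.Den
import Pool.Agent.LR.B4.Blow

/-!
# B4, 5.1: equidistribution modulo one of macroscopic averages in the free box
-/

set_option autoImplicit false

noncomputable section

open scoped BigOperators Topology
open MeasureTheory Filter Set

namespace Pool.Agent.LR.B4

theorem root_mem {W : Type*} [Inhabited W] {S : Finset W} (h : S.Nonempty) : root S ∈ S := by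
  unfold root
  rw [dif_pos h]
  exact h.choose_spec

/-- The rooted site does not contribute to the pairing. -/
theorem pr_emb_erase {W : Type*} [DecidableEq W] (S : Finset W) (r : W) (g : W → ℝ)
    (ψ : ↥(S.erase r) → ℤ) :
    pr S g (emb (S.erase r) ψ) = pr (S.erase r) g (emb (S.erase r) ψ) := by
  unfold pr
  symm
  apply Finset.sum_subset (Finset.erase_subset r S)
  intro x _ hx
  simp [emb, hx]

/-- Nonnegativity of characteristic functions at shift zero and the bound at shift `h`. -/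
theorem Exr_cos {α β : ℝ} (hβ : 0 < β) {S : Finset V} (hS : S.Nonempty) (g h : V → ℝ) :
    |Exr (JJ α β) S h (fun φ => Real.cos (pr S g φ))| ≤
      Exr (JJ α β) S 0 (fun φ => Real.cos (pr S g φ)) := by
  have h1 := Ex_cos (isForm_QF (α := α) hβ.le S) (pdef_QF_erase (α := α) hβ (root_mem hS)) g h 0
  simp only [add_zero] at h1
  unfold Exr
  simp only [pr_emb_erase S (root S)]
  exact h1

theorem sc_ne {z₀ : P} {ρ : ℝ} (hρ : 0 < ρ) : ∀ᶠ n : ℕ in atTop, (SS z₀ ρ n).Nonempty := by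
  have h := tendsto_natCast_atTop_atTop (R := ℝ)
  filter_upwards [h.eventually_ge_atTop (1 / ρ)] with n hn
  have h1 : 1 ≤ (n : ℝ) * ρ := by
    rw [div_le_iff₀ hρ] at hn
    linarith
  have key : ∀ t : ℝ, ⌈(n : ℝ) * (t - 13 * ρ)⌉ ≤ ⌊(n : ℝ) * (t + 13 * ρ)⌋ := by
    intro t
    rw [Int.ceil_le]
    have h2 := Int.sub_one_lt_floor ((n : ℝ) * (t + 13 * ρ))
    nlinarith
  refine ⟨(⌈(n : ℝ) * (z₀.1 - 13 * ρ)⌉, ⌈(n : ℝ) * (z₀.2 - 13 * ρ)⌉), ?_⟩
  simp only [SS, bx, Finset.mem_product, Finset.mem_Icc]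
  exact ⟨⟨le_refl _, key _⟩, le_refl _, key _⟩

theorem equi {α β κ : ℝ} (hα : 4 < α) (hβ : 0 < β) (hκ : KapSpec α β κ) (hlt : κ < cc α β)
    {z₀ : P} {ρ δ : ℝ} (hρ : 0 < ρ) (hδ : 0 < δ) (l : ℤ) (hl : l ≠ 0) (c : V → ℝ)
    (hc : ∑ i ∈ pin z₀ ρ δ, c i = 2 * Real.pi * l) :
    Tendsto (fun n : ℕ => Exr (JJ α β) (SS z₀ ρ n) 0
      (fun φ => Real.cos (pr (SS z₀ ρ n) (bq z₀ ρ δ c n) φ))) atTop (𝓝 0) := by
  have hcc : 0 < cc α β := lt_of_le_of_lt hκ.nonneg hlt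
  set lam : ℝ := (1 - κ / cc α β) / 2 with hlam
  have hlampos : 0 < lam := by
    have : κ / cc α β < 1 := (div_lt_one hcc).mpr hlt
    rw [hlam]; linarith
  rw [Metric.tendsto_nhds]
  intro ε hε
  -- the size of the capacity
  set B : ℝ := -(Real.log (ε ^ 2 / 2)) / lam with hB
  have hBε : Real.exp (-(lam * B)) < ε ^ 2 := by
    have h1 : -(lam * B) = Real.log (ε ^ 2 / 2) := by
      rw [hB]; field_simp
    rw [h1, Real.exp_log (by positivity)]
    have : 0 < ε ^ 2 := by positivity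
    linarith
  set R : ℝ := |z₀.1| + |z₀.2| + 6 * ρ with hR
  have hRpos : 0 < R := by
    have := abs_nonneg z₀.1
    have := abs_nonneg z₀.2
    rw [hR]; linarith
  obtain ⟨p₀, hp₀⟩ := blow hcc hRpos l hl B
  obtain ⟨p₁, hp₁⟩ := exists_nat_gt (|z₀.1| + |z₀.2| + 13 * ρ)
  set p : ℕ := max p₀ p₁ with hp
  have hpp : |z₀.1| + |z₀.2| + 13 * ρ < (p : ℝ) := by
    refine lt_of_lt_of_le hp₁ ?_
    exact_mod_cast le_max_right p₀ p₁
  have hppos : (0 : ℝ) < p := by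
    have := abs_nonneg z₀.1
    have := abs_nonneg z₀.2
    linarith
  obtain ⟨hFi, hFint⟩ := bF_int z₀ ρ hδ c
  obtain ⟨G, hG, hGB⟩ := hp₀ p (le_max_left p₀ p₁) (bF z₀ ρ δ c) hFi
    (fun z hz => bF_supp hρ hδ c z hz) (by rw [hFint, hc])
  obtain ⟨q, hq, hqe⟩ := chg2 hρ hδ c p hpp
  obtain ⟨N, hN0, hNG, hNlim⟩ := char_free hα hβ hκ (a := -(3 * (p : ℝ))) (b := 5 * p)
    (c := -(4 * (p : ℝ))) (d := 4 * p) (by linarith) (by linarith) q _ hq
  have hBN : B ≤ N := le_trans hGB (hNG G hG)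
  have hlim := hNlim (fun _ => 0) contDiff_const (HasCompactSupport.zero) (by simp [tsupport]) (by simp) 0
  have hval : Real.cos 0 * Real.exp (-(lam * N)) < ε ^ 2 := by
    rw [Real.cos_zero, one_mul]
    refine lt_of_le_of_lt (Real.exp_le_exp.mpr ?_) hBε
    nlinarith
  have hev := hlim.eventually (gt_mem_nhds hval)
  have hsm : ∀ n : ℕ, smp (fun _ : P => (0 : ℝ)) n = 0 := fun n => rfl
  filter_upwards [hev, hqe, bq_sum hρ hδ c (z₀ := z₀), sc_ne (z₀ := z₀) hρ,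
    eventually_gt_atTop 0] with n h1 h2 h3 h4 h5
  obtain ⟨hb1, hb2, hb3⟩ := big_box (z₀ := z₀) hρ p hpp h5
  set S' := bx (-(3 * (p : ℝ))) (5 * p) (-(4 * (p : ℝ))) (4 * p) n with hS'
  set g := bq z₀ ρ δ c n with hg
  have hgs : Supp (SS z₀ ρ n) g := bq_supp z₀ ρ δ c n
  have hSS' : SS z₀ ρ n ⊆ S' := fun x hx => (Finset.mem_filter.1 (hb1 hx)).1
  have hgs' : Supp (S'.filter (fun x => x.1 < ((p * n : ℕ) : ℤ))) g := by
    intro x hx
    exact hgs x (fun hx' => hx (hb1 hx'))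
  have hgsum' : ∑ x ∈ S', g x = 2 * Real.pi * l := by
    rw [← hc, ← h3]
    symm
    apply Finset.sum_subset hSS'
    intro x _ hx
    exact hgs x hx
  have m1 := char_mono hα hβ (SS z₀ ρ n) S' h4 hSS' g hgs l (by rw [h3, hc])
  have m2 := rp_char hα hβ ((p * n : ℕ) : ℤ) S' hb2 ⟨_, hb3, rfl⟩ g hgs' l hgsum'
  have m3 : Exr (JJ α β) S' 0 (fun φ => Real.cos (pr S' (fun x => g x -
      g (2 * ((p * n : ℕ) : ℤ) - x.1, x.2)) φ)) < ε ^ 2 := by
    rw [h2, hsm] at h1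
    simpa [refV] using h1
  have m0 : 0 ≤ Exr (JJ α β) (SS z₀ ρ n) 0 (fun φ => Real.cos (pr (SS z₀ ρ n) g φ)) :=
    le_trans (abs_nonneg _) (Exr_cos (α := α) hβ h4 g 0)
  have m4 : Exr (JJ α β) S' 0 (fun φ => Real.cos (pr S' g φ)) < ε := by
    have := lt_of_le_of_lt m2 m3
    exact (abs_lt_of_sq_lt_sq' this hε.le).2
  rw [Real.dist_eq, sub_zero, abs_of_nonneg m0]
  exact lt_of_le_of_lt m1 m4

end Pool.Agent.LR.B4
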