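import Mathlib

/-!
# LR-B4-GAU: Gaussian representation of the pin factor

PLAN. `γ = Measure.pi (fun _ => gaussianReal 0 ⟨m, hm.le⟩)` is a probability measure. For `b : s → ℝ`
`∫ cexp (I * ∑ ξ_i b_i) dγ = ∏ ∫ cexp (I * (b_i * ξ)) d(gaussianReal 0 m) = ∏ cexp (-(m b_i²/2))`:
write `cexp (∑ ..) = ∏ cexp (..)` and use `MeasureTheory.integral_fintype_prod_eq_prod` (also for `Measure.pi`,
`𝕜 = ℂ`) and `ProbabilityTheory.charFun_gaussianReal` (`charFun_apply_real`). Then
`∫ cexp (I * (∑ ξ_i b_i + t)) dγ = cexp (I t) * exp (-(1/2) m ∑ b_i²)`; take real parts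
(`integral_re` / `reCLM.integral_comp_comm`, integrability: bounded continuous on a probability space);
`Complex.exp_ofReal_mul_I_re`.
-/

set_option autoImplicit false

noncomputable section

open scoped BigOperators Topology
open MeasureTheory Filter Set ProbabilityTheory

namespace Pool.Agent.LR.B4

private theorem gau_int {s : Type*} [Fintype s] (m : ℝ) (hm : 0 < m) (b : s → ℝ) :
    ∫ ξ : s → ℝ, Complex.exp (((∑ i, ξ i * b i : ℝ) : ℂ) * Complex.I)
        ∂(Measure.pi (fun _ : s => gaussianReal 0 m.toNNReal))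
      = ((Real.exp (-(1 / 2) * m * ∑ i, b i ^ 2) : ℝ) : ℂ) := by
  have e : ∀ ξ : s → ℝ, Complex.exp (((∑ i, ξ i * b i : ℝ) : ℂ) * Complex.I)
      = ∏ i, (fun (i : s) (x : ℝ) => Complex.exp ((b i : ℂ) * (x : ℂ) * Complex.I)) i (ξ i) := by
    intro ξ
    simp only
    rw [← Complex.exp_sum]
    congr 1
    push_cast
    rw [Finset.sum_mul]
    exact Finset.sum_congr rfl fun i _ => by ring
  rw [integral_congr_ae (Filter.Eventually.of_forall e)]
  rw [integral_fintype_prod_eq_prod (𝕜 := ℂ)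
    (fun (i : s) (x : ℝ) => Complex.exp ((b i : ℂ) * (x : ℂ) * Complex.I))]
  have h2 : ∀ i : s, ∫ x : ℝ, Complex.exp ((b i : ℂ) * (x : ℂ) * Complex.I)
      ∂(gaussianReal 0 m.toNNReal) = Complex.exp (((-(1 / 2) * m * b i ^ 2 : ℝ) : ℂ)) := by
    intro i
    rw [← charFun_apply_real, charFun_gaussianReal]
    congr 1
    rw [Real.coe_toNNReal m hm.le]
    push_cast
    ring
  rw [Finset.prod_congr rfl fun i _ => h2 i, ← Complex.exp_sum, Complex.ofReal_exp]
  congr 1
  rw [← Complex.ofReal_sum, Finset.mul_sum]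

theorem gauss_rep {s : Type*} [Fintype s] (m : ℝ) (hm : 0 < m) :
    ∃ γ : Measure (s → ℝ), IsProbabilityMeasure γ ∧ ∀ (b : s → ℝ) (t : ℝ),
      ∫ ξ, Real.cos ((∑ i, ξ i * b i) + t) ∂γ
        = Real.exp (-(1 / 2) * m * ∑ i, b i ^ 2) * Real.cos t := by
  refine ⟨Measure.pi (fun _ => gaussianReal 0 m.toNNReal), inferInstance, ?_⟩
  intro b t
  have h1 := gau_int m hm b
  set γ : Measure (s → ℝ) := Measure.pi (fun _ => gaussianReal 0 m.toNNReal) with hγ
  have hint : Integrable (fun ξ : s → ℝ =>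
      Complex.exp (((∑ i, ξ i * b i : ℝ) : ℂ) * Complex.I) * Complex.exp ((t : ℂ) * Complex.I)) γ := by
    refine Integrable.mono' (g := fun _ => (1 : ℝ)) (integrable_const 1) ?_ ?_
    · apply Continuous.aestronglyMeasurable
      fun_prop
    · refine Filter.Eventually.of_forall fun ξ => ?_
      rw [norm_mul, Complex.norm_exp_ofReal_mul_I, Complex.norm_exp_ofReal_mul_I, mul_one]
  have h3 : ∀ ξ : s → ℝ, Real.cos ((∑ i, ξ i * b i) + t)
      = (Complex.exp (((∑ i, ξ i * b i : ℝ) : ℂ) * Complex.I) *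
          Complex.exp ((t : ℂ) * Complex.I)).re := by
    intro ξ
    rw [← Complex.exp_add, ← add_mul, ← Complex.ofReal_add, Complex.exp_ofReal_mul_I_re]
  rw [integral_congr_ae (Filter.Eventually.of_forall h3)]
  have h4 : ∫ ξ : s → ℝ, (Complex.exp (((∑ i, ξ i * b i : ℝ) : ℂ) * Complex.I) *
          Complex.exp ((t : ℂ) * Complex.I)).re ∂γ =
      (∫ ξ : s → ℝ, Complex.exp (((∑ i, ξ i * b i : ℝ) : ℂ) * Complex.I) *
          Complex.exp ((t : ℂ) * Complex.I) ∂γ).re := integral_re (𝕜 := ℂ) hint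
  rw [h4, integral_mul_const, h1, Complex.re_ofReal_mul, Complex.exp_ofReal_mul_I_re]

end Pool.Agent.LR.B4
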