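import Pool.Agent.LR.B4.Jac
import Pool.Agent.LR.B4.Gau

/-!
# LR-B4-LIM: abstract exactness of integer-shifted pins
-/

set_option autoImplicit false

noncomputable section

open scoped BigOperators Topology
open MeasureTheory Filter Set

namespace Pool.Agent.LR.B4

/-- The pin factor summed over a common integer shift. -/
def Fti {s : Type*} [Fintype s] (m : ℝ) (a : s → ℝ) : ℝ :=
  ∑' k : ℤ, Real.exp (-(1 / 2) * m * ∑ i, (a i + k) ^ 2)

section

variable {s : Type*} [Fintype s]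

/-- The coefficients of the functional `∑ ξ_i (a_i - ā) + 2π l ā`. -/
private def cf (l : ℤ) (ξ : s → ℝ) (j : s) : ℝ :=
  ξ j - (∑ i, ξ i) / Fintype.card s + 2 * Real.pi * l / Fintype.card s

private theorem cf_sum [Nonempty s] (l : ℤ) (ξ : s → ℝ) : ∑ j, cf l ξ j = 2 * Real.pi * l := by
  have hN : (Fintype.card s : ℝ) ≠ 0 := by exact_mod_cast Fintype.card_ne_zero
  simp only [cf, Finset.sum_add_distrib, Finset.sum_sub_distrib, Finset.sum_const,
    Finset.card_univ, nsmul_eq_mul]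
  field_simp
  ring

private def ab (a : s → ℝ) : ℝ := (∑ i, a i) / Fintype.card s

private theorem cf_pair [Nonempty s] (l : ℤ) (ξ a : s → ℝ) :
    ∑ j, cf l ξ j * a j = (∑ i, ξ i * (a i - ab a)) + 2 * Real.pi * l * ab a := by
  have hN : (Fintype.card s : ℝ) ≠ 0 := by exact_mod_cast Fintype.card_ne_zero
  have h1 : ∑ j, cf l ξ j * a j = (∑ j, ξ j * a j) - ((∑ i, ξ i) / Fintype.card s) * ∑ j, a j
      + (2 * Real.pi * l / Fintype.card s) * ∑ j, a j := by
    rw [Finset.mul_sum, Finset.mul_sum, ← Finset.sum_sub_distrib, ← Finset.sum_add_distrib]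
    refine Finset.sum_congr rfl fun j _ => ?_
    simp only [cf]; ring
  have h2 : ∑ i, ξ i * (a i - ab a) = (∑ j, ξ j * a j) - (∑ i, ξ i) * ab a := by
    rw [Finset.sum_mul, ← Finset.sum_sub_distrib]
    refine Finset.sum_congr rfl fun j _ => ?_
    ring
  rw [h1, h2]
  simp only [ab]
  field_simp

private def gl (m : ℝ) (l : ℤ) (a : s → ℝ) : ℝ :=
  Real.exp (-(1 / 2) * m * ∑ i, (a i - ab a) ^ 2) * Real.cos (2 * Real.pi * l * ab a)

private theorem gl_cont (m : ℝ) (l : ℤ) : Continuous (gl (s := s) m l) := by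
  unfold gl ab
  fun_prop

private theorem gl_bd (m : ℝ) (hm : 0 < m) (l : ℤ) (a : s → ℝ) : ‖gl m l a‖ ≤ 1 := by
  unfold gl
  rw [norm_mul, Real.norm_of_nonneg (Real.exp_pos _).le]
  have h1 : Real.exp (-(1 / 2) * m * ∑ i, (a i - ab a) ^ 2) ≤ 1 := by
    rw [Real.exp_le_one_iff]
    have : 0 ≤ ∑ i, (a i - ab a) ^ 2 := Finset.sum_nonneg fun i _ => sq_nonneg _
    have h3 : 0 ≤ m * ∑ i, (a i - ab a) ^ 2 := mul_nonneg hm.le this
    nlinarith
  have h2 : ‖Real.cos (2 * Real.pi * l * ab a)‖ ≤ 1 := Real.abs_cos_le_one _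
  calc Real.exp (-(1 / 2) * m * ∑ i, (a i - ab a) ^ 2) * ‖Real.cos (2 * Real.pi * l * ab a)‖
      ≤ 1 * 1 := mul_le_mul h1 h2 (norm_nonneg _) zero_le_one
    _ = 1 := one_mul 1

private theorem Fti_eq [Nonempty s] (m : ℝ) (hm : 0 < m) (a : s → ℝ) :
    Fti m a = Real.sqrt (2 * Real.pi / (Fintype.card s * m)) *
      ∑' l : ℤ, Real.exp (-(2 * Real.pi ^ 2 / (Fintype.card s * m)) * (l : ℝ) ^ 2) * gl m l a := by
  have hN : (0 : ℝ) < Fintype.card s := by exact_mod_cast Fintype.card_pos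
  have hs : 0 < ∑ i : s, (fun _ => m) i := by
    simp only [Finset.sum_const, Finset.card_univ, nsmul_eq_mul]
    positivity
  have hJ := jacobi Finset.univ (fun _ : s => m) a hs
  have hsum : ∑ i : s, m = Fintype.card s * m := by
    simp only [Finset.sum_const, Finset.card_univ, nsmul_eq_mul]
  have hab : (∑ j : s, m * a j) / (Fintype.card s * m) = ab a := by
    rw [← Finset.mul_sum]
    simp only [ab]
    field_simp
  simp only [hsum, hab] at hJ
  have h1 : ∀ k : ℤ, -(1 / 2) * ∑ i : s, m * (a i + k) ^ 2 = -(1 / 2) * m * ∑ i : s, (a i + k) ^ 2 := by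
    intro k
    rw [← Finset.mul_sum]; ring
  have h2 : -(1 / 2) * ∑ i : s, m * (a i - ab a) ^ 2 = -(1 / 2) * m * ∑ i : s, (a i - ab a) ^ 2 := by
    rw [← Finset.mul_sum]; ring
  simp only [h1, h2] at hJ
  exact hJ

private theorem summ_w [Nonempty s] (m : ℝ) (hm : 0 < m) :
    Summable (fun l : ℤ => Real.exp (-(2 * Real.pi ^ 2 / (Fintype.card s * m)) * (l : ℝ) ^ 2)) := by
  have hN : (0 : ℝ) < Fintype.card s := by exact_mod_cast Fintype.card_pos
  have hpi := Real.pi_pos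
  exact summable_gauss _ (by positivity)

private theorem int_gl (m : ℝ) (hm : 0 < m) (l : ℤ) (ν : Measure (s → ℝ)) [IsFiniteMeasure ν] :
    Integrable (gl m l) ν :=
  Integrable.of_bound (gl_cont m l).aestronglyMeasurable 1 (Eventually.of_forall (gl_bd m hm l))

private theorem int_gl_le (m : ℝ) (hm : 0 < m) (l : ℤ) (ν : Measure (s → ℝ))
    [IsProbabilityMeasure ν] : ‖∫ a, gl m l a ∂ν‖ ≤ 1 := by
  have := norm_integral_le_of_norm_le_const (μ := ν) (Eventually.of_forall (gl_bd m hm l))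
  simpa using this

private theorem int_Fti [Nonempty s] (m : ℝ) (hm : 0 < m) (ν : Measure (s → ℝ))
    [IsProbabilityMeasure ν] :
    ∫ a, Fti m a ∂ν = Real.sqrt (2 * Real.pi / (Fintype.card s * m)) *
      ∑' l : ℤ, Real.exp (-(2 * Real.pi ^ 2 / (Fintype.card s * m)) * (l : ℝ) ^ 2) *
        ∫ a, gl m l a ∂ν := by
  simp only [Fti_eq m hm]
  rw [integral_const_mul]
  congr 1
  have h1 : ∀ l : ℤ, Real.exp (-(2 * Real.pi ^ 2 / (Fintype.card s * m)) * (l : ℝ) ^ 2) *
        ∫ a, gl m l a ∂ν = ∫ a, Real.exp (-(2 * Real.pi ^ 2 / (Fintype.card s * m)) * (l : ℝ) ^ 2) *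
          gl m l a ∂ν := fun l => (integral_const_mul _ _).symm
  simp only [h1]
  symm
  apply integral_tsum_of_summable_integral_norm
  · intro l
    exact (int_gl m hm l ν).const_mul _
  · refine Summable.of_nonneg_of_le (fun l => integral_nonneg fun a => norm_nonneg _) (fun l => ?_)
      (summ_w (s := s) m hm)
    have h2 : ∀ a : s → ℝ, ‖Real.exp (-(2 * Real.pi ^ 2 / (Fintype.card s * m)) * (l : ℝ) ^ 2) *
        gl m l a‖ ≤ Real.exp (-(2 * Real.pi ^ 2 / (Fintype.card s * m)) * (l : ℝ) ^ 2) := by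
      intro a
      rw [norm_mul, Real.norm_of_nonneg (Real.exp_pos _).le]
      exact mul_le_of_le_one_right (Real.exp_pos _).le (gl_bd m hm l a)
    calc ∫ a, ‖Real.exp (-(2 * Real.pi ^ 2 / (Fintype.card s * m)) * (l : ℝ) ^ 2) * gl m l a‖ ∂ν
        ≤ ∫ a, Real.exp (-(2 * Real.pi ^ 2 / (Fintype.card s * m)) * (l : ℝ) ^ 2) ∂ν := by
          refine integral_mono_of_nonneg (Eventually.of_forall fun a => norm_nonneg _)
            (integrable_const _) (Eventually.of_forall h2)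
      _ = Real.exp (-(2 * Real.pi ^ 2 / (Fintype.card s * m)) * (l : ℝ) ^ 2) := by simp

private theorem K_cont [Nonempty s] (l : ℤ) :
    Continuous (fun p : (s → ℝ) × (s → ℝ) => Real.cos (∑ j, cf l p.1 j * p.2 j)) := by
  unfold cf
  fun_prop

private theorem gl_rep [Nonempty s] (m : ℝ) (γ : Measure (s → ℝ))
    (hγ : ∀ (b : s → ℝ) (t : ℝ), ∫ ξ, Real.cos ((∑ i, ξ i * b i) + t) ∂γ
        = Real.exp (-(1 / 2) * m * ∑ i, b i ^ 2) * Real.cos t) (l : ℤ) (a : s → ℝ) :
    gl m l a = ∫ ξ, Real.cos (∑ j, cf l ξ j * a j) ∂γ := by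
  simp only [cf_pair, gl]
  rw [hγ]

private theorem K_cont' [Nonempty s] (l : ℤ) :
    Continuous (fun p : (s → ℝ) × (s → ℝ) => Real.cos (∑ j, cf l p.2 j * p.1 j)) := by
  unfold cf
  fun_prop

private theorem K_int' [Nonempty s] (γ ν : Measure (s → ℝ)) [IsProbabilityMeasure γ]
    [IsProbabilityMeasure ν] (l : ℤ) :
    Integrable (Function.uncurry fun (a ξ : s → ℝ) => Real.cos (∑ j, cf l ξ j * a j))
      (ν.prod γ) := by
  have h1 : AEStronglyMeasurable
      (fun p : (s → ℝ) × (s → ℝ) => Real.cos (∑ j, cf l p.2 j * p.1 j)) (ν.prod γ) :=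
    (K_cont' l).aestronglyMeasurable
  have h2 : Integrable
      (fun p : (s → ℝ) × (s → ℝ) => Real.cos (∑ j, cf l p.2 j * p.1 j)) (ν.prod γ) :=
    Integrable.of_bound h1 1 (Eventually.of_forall fun p => Real.abs_cos_le_one _)
  have e : (Function.uncurry fun (a ξ : s → ℝ) => Real.cos (∑ j, cf l ξ j * a j)) =
      fun p : (s → ℝ) × (s → ℝ) => Real.cos (∑ j, cf l p.2 j * p.1 j) := by
    funext p; rfl
  rw [e]
  exact h2

private theorem swap_gl [Nonempty s] (m : ℝ) (γ ν : Measure (s → ℝ)) [IsProbabilityMeasure γ]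
    [IsProbabilityMeasure ν]
    (hγ : ∀ (b : s → ℝ) (t : ℝ), ∫ ξ, Real.cos ((∑ i, ξ i * b i) + t) ∂γ
        = Real.exp (-(1 / 2) * m * ∑ i, b i ^ 2) * Real.cos t) (l : ℤ) :
    ∫ a, gl m l a ∂ν = ∫ ξ, ∫ a, Real.cos (∑ j, cf l ξ j * a j) ∂ν ∂γ := by
  have h1 : ∫ a, gl m l a ∂ν = ∫ a, ∫ ξ, Real.cos (∑ j, cf l ξ j * a j) ∂γ ∂ν :=
    integral_congr_ae (Eventually.of_forall fun a => gl_rep m γ hγ l a)
  rw [h1]
  exact integral_integral_swap (K_int' γ ν l)

private theorem meas_in [Nonempty s] (ν : Measure (s → ℝ)) [IsProbabilityMeasure ν] (l : ℤ) :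
    StronglyMeasurable (fun ξ : s → ℝ => ∫ a, Real.cos (∑ j, cf l ξ j * a j) ∂ν) := by
  have h := (K_cont (s := s) l).stronglyMeasurable.integral_prod_right' (ν := ν)
  exact h

private theorem in_bd (ν : Measure (s → ℝ)) [IsProbabilityMeasure ν] (c : s → ℝ) :
    ‖∫ a, Real.cos (∑ j, c j * a j) ∂ν‖ ≤ 1 := by
  have := norm_integral_le_of_norm_le_const (μ := ν) (f := fun a => Real.cos (∑ j, c j * a j))
    (C := 1) (Eventually.of_forall fun a => Real.abs_cos_le_one _)
  simpa using this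

end

theorem lim_ratio {s : Type*} [Fintype s] [Nonempty s] (m : ℝ) (hm : 0 < m)
    (ν ν0 : ℕ → Measure (s → ℝ)) (hν : ∀ n, IsProbabilityMeasure (ν n))
    (hν0 : ∀ n, IsProbabilityMeasure (ν0 n))
    (hA : ∀ᶠ n in atTop, ∀ c : s → ℝ,
      |∫ a, Real.cos (∑ i, c i * a i) ∂(ν n)| ≤ ∫ a, Real.cos (∑ i, c i * a i) ∂(ν0 n))
    (hB : ∀ (l : ℤ), l ≠ 0 → ∀ c : s → ℝ, ∑ i, c i = 2 * Real.pi * l →
      Tendsto (fun n => ∫ a, Real.cos (∑ i, c i * a i) ∂(ν0 n)) atTop (𝓝 0))
    (hC : ∀ c : s → ℝ, ∑ i, c i = 0 → ∃ L : ℝ, 0 < L ∧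
      Tendsto (fun n => ∫ a, Real.cos (∑ i, c i * a i) ∂(ν n)) atTop (𝓝 L) ∧
      Tendsto (fun n => ∫ a, Real.cos (∑ i, c i * a i) ∂(ν0 n)) atTop (𝓝 L)) :
    Tendsto (fun n => (∫ a, Fti m a ∂(ν n)) / ∫ a, Fti m a ∂(ν0 n)) atTop (𝓝 1) := by
  obtain ⟨γ, hγp, hγ⟩ := gauss_rep (s := s) m hm
  have hN : (0 : ℝ) < Fintype.card s := by exact_mod_cast Fintype.card_pos
  have hpi := Real.pi_pos
  have hcf0 : ∀ ξ : s → ℝ, ∑ j, cf 0 ξ j = 0 := by
    intro ξ
    rw [cf_sum]; simp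
  choose L hLpos hL1 hL0 using fun ξ : s → ℝ => hC (cf 0 ξ) (hcf0 ξ)
  set τ : ℝ := ∫ ξ, L ξ ∂γ with hτ
  have hLle : ∀ ξ, ‖L ξ‖ ≤ 1 := by
    intro ξ
    exact le_of_tendsto (hL1 ξ).norm (Eventually.of_forall fun n => by
      have := hν n
      exact in_bd (ν n) _)
  have hLmeas : AEStronglyMeasurable L γ := by
    refine aestronglyMeasurable_of_tendsto_ae atTop
      (f := fun n (ξ : s → ℝ) => ∫ a, Real.cos (∑ j, cf 0 ξ j * a j) ∂(ν n)) (fun n => ?_)
      (Eventually.of_forall fun ξ => hL1 ξ)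
    have := hν n
    exact (meas_in (ν n) 0).aestronglyMeasurable
  have hLint : Integrable L γ := Integrable.of_bound hLmeas 1 (Eventually.of_forall hLle)
  have hτpos : 0 < τ := by
    rw [hτ, integral_pos_iff_support_of_nonneg (fun ξ => (hLpos ξ).le) hLint]
    have : Function.support L = Set.univ := by
      ext ξ; simp [(hLpos ξ).ne']
    rw [this]; simp
  -- the limits of the individual terms
  have hT0 : ∀ l : ℤ, Tendsto (fun n => ∫ a, gl m l a ∂(ν0 n)) atTop (𝓝 (if l = 0 then τ else 0)) := by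
    intro l
    have e : ∀ n, ∫ a, gl m l a ∂(ν0 n) = ∫ ξ, ∫ a, Real.cos (∑ j, cf l ξ j * a j) ∂(ν0 n) ∂γ := by
      intro n
      have := hν0 n
      exact swap_gl m γ (ν0 n) hγ l
    simp only [e]
    by_cases hl : l = 0
    · subst hl
      simp only [if_true]
      refine tendsto_integral_of_dominated_convergence (fun _ => 1) (fun n => ?_)
        (integrable_const _) (fun n => ?_) (Eventually.of_forall fun ξ => hL0 ξ)
      · have := hν0 n
        exact (meas_in (ν0 n) 0).aestronglyMeasurable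
      · have := hν0 n
        exact Eventually.of_forall fun ξ => in_bd _ _
    · simp only [hl, if_false]
      have h0 : (0 : ℝ) = ∫ _ξ : s → ℝ, (0 : ℝ) ∂γ := by simp
      rw [h0]
      refine tendsto_integral_of_dominated_convergence (fun _ => 1) (fun n => ?_)
        (integrable_const _) (fun n => ?_) (Eventually.of_forall fun ξ => hB l hl _ (cf_sum l ξ))
      · have := hν0 n
        exact (meas_in (ν0 n) l).aestronglyMeasurable
      · have := hν0 n
        exact Eventually.of_forall fun ξ => in_bd _ _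
  have hT : ∀ l : ℤ, Tendsto (fun n => ∫ a, gl m l a ∂(ν n)) atTop (𝓝 (if l = 0 then τ else 0)) := by
    intro l
    have e : ∀ n, ∫ a, gl m l a ∂(ν n) = ∫ ξ, ∫ a, Real.cos (∑ j, cf l ξ j * a j) ∂(ν n) ∂γ := by
      intro n
      have := hν n
      exact swap_gl m γ (ν n) hγ l
    by_cases hl : l = 0
    · subst hl
      simp only [e, if_true]
      refine tendsto_integral_of_dominated_convergence (fun _ => 1) (fun n => ?_)
        (integrable_const _) (fun n => ?_) (Eventually.of_forall fun ξ => hL1 ξ)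
      · have := hν n
        exact (meas_in (ν n) 0).aestronglyMeasurable
      · have := hν n
        exact Eventually.of_forall fun ξ => in_bd _ _
    · have h0 := hT0 l
      simp only [hl, if_false] at h0 ⊢
      refine squeeze_zero_norm' ?_ h0
      filter_upwards [hA] with n hn
      have := hν n
      have := hν0 n
      rw [e, swap_gl m γ (ν0 n) hγ l]
      calc ‖∫ ξ, ∫ a, Real.cos (∑ j, cf l ξ j * a j) ∂(ν n) ∂γ‖
          ≤ ∫ ξ, ‖∫ a, Real.cos (∑ j, cf l ξ j * a j) ∂(ν n)‖ ∂γ := norm_integral_le_integral_norm _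
        _ ≤ ∫ ξ, ∫ a, Real.cos (∑ j, cf l ξ j * a j) ∂(ν0 n) ∂γ := by
          refine integral_mono_of_nonneg (Eventually.of_forall fun ξ => norm_nonneg _) ?_
            (Eventually.of_forall fun ξ => hn _)
          exact Integrable.of_bound (meas_in (ν0 n) l).aestronglyMeasurable 1
            (Eventually.of_forall fun ξ => in_bd _ _)
  -- Tannery
  have hlim : ∀ (θ : ℕ → Measure (s → ℝ)), (∀ n, IsProbabilityMeasure (θ n)) →
      (∀ l : ℤ, Tendsto (fun n => ∫ a, gl m l a ∂(θ n)) atTop (𝓝 (if l = 0 then τ else 0))) →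
      Tendsto (fun n => ∫ a, Fti m a ∂(θ n)) atTop
        (𝓝 (Real.sqrt (2 * Real.pi / (Fintype.card s * m)) * τ)) := by
    intro θ hθ hθl
    have e : ∀ n, ∫ a, Fti m a ∂(θ n) = Real.sqrt (2 * Real.pi / (Fintype.card s * m)) *
      ∑' l : ℤ, Real.exp (-(2 * Real.pi ^ 2 / (Fintype.card s * m)) * (l : ℝ) ^ 2) *
        ∫ a, gl m l a ∂(θ n) := by
      intro n
      have := hθ n
      exact int_Fti m hm (θ n)
    simp only [e]
    refine Tendsto.const_mul _ ?_
    have hτs : τ = ∑' l : ℤ, Real.exp (-(2 * Real.pi ^ 2 / (Fintype.card s * m)) * (l : ℝ) ^ 2) *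
        (if l = 0 then τ else 0) := by
      rw [tsum_eq_single 0 (fun l hl => by simp [hl])]
      simp
    rw [hτs]
    refine tendsto_tsum_of_dominated_convergence (summ_w (s := s) m hm) (fun l => ?_) ?_
    · exact (hθl l).const_mul _
    · refine Eventually.of_forall fun n l => ?_
      have := hθ n
      rw [norm_mul, Real.norm_of_nonneg (Real.exp_pos _).le]
      exact mul_le_of_le_one_right (Real.exp_pos _).le (int_gl_le m hm l (θ n))
  have hκ : Real.sqrt (2 * Real.pi / (Fintype.card s * m)) * τ ≠ 0 := by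
    have : 0 < Real.sqrt (2 * Real.pi / (Fintype.card s * m)) := Real.sqrt_pos.mpr (by positivity)
    positivity
  have := (hlim ν hν hT).div (hlim ν0 hν0 hT0) hκ
  rwa [div_self hκ] at this

/-- `Fti` is measurable, bounded and positive. -/
theorem Fti_bdd {s : Type*} [Fintype s] [Nonempty s] (m : ℝ) (hm : 0 < m) :
    ∃ C : ℝ, ∀ a : s → ℝ, |Fti m a| ≤ C := by
  refine ⟨Real.sqrt (2 * Real.pi / (Fintype.card s * m)) *
    ∑' l : ℤ, Real.exp (-(2 * Real.pi ^ 2 / (Fintype.card s * m)) * (l : ℝ) ^ 2), fun a => ?_⟩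
  rw [Fti_eq m hm, abs_mul, abs_of_nonneg (Real.sqrt_nonneg _)]
  refine mul_le_mul_of_nonneg_left ?_ (Real.sqrt_nonneg _)
  rw [← Real.norm_eq_abs]
  refine tsum_of_norm_bounded (summ_w (s := s) m hm).hasSum fun l => ?_
  rw [norm_mul, Real.norm_of_nonneg (Real.exp_pos _).le]
  exact mul_le_of_le_one_right (Real.exp_pos _).le (gl_bd m hm l a)

theorem Fti_meas {s : Type*} [Fintype s] [Nonempty s] (m : ℝ) (hm : 0 < m) :
    Measurable (Fti (s := s) m) := by
  have h : Fti (s := s) m = fun a => Real.sqrt (2 * Real.pi / (Fintype.card s * m)) *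
      ∑' l : ℤ, Real.exp (-(2 * Real.pi ^ 2 / (Fintype.card s * m)) * (l : ℝ) ^ 2) * gl m l a :=
    funext fun a => Fti_eq m hm a
  rw [h]
  refine Continuous.measurable ?_
  refine continuous_const.mul ?_
  refine continuous_tsum (fun l => continuous_const.mul (gl_cont m l)) (summ_w (s := s) m hm)
    fun l a => ?_
  rw [norm_mul, Real.norm_of_nonneg (Real.exp_pos _).le]
  exact mul_le_of_le_one_right (Real.exp_pos _).le (gl_bd m hm l a)

theorem Fti_summable {s : Type*} [Fintype s] [Nonempty s] (m : ℝ) (hm : 0 < m) (a : s → ℝ) :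
    Summable (fun k : ℤ => Real.exp (-(1 / 2) * m * ∑ i, (a i + k) ^ 2)) := by
  obtain ⟨i₀⟩ := ‹Nonempty s›
  have h1 : Summable (fun k : ℤ => Real.exp (m * (a i₀) ^ 2) * Real.exp (-(m / 4) * (k : ℝ) ^ 2)) :=
    (summable_gauss (m / 4) (by positivity)).mul_left _
  refine Summable.of_nonneg_of_le (fun k => (Real.exp_pos _).le) (fun k => ?_) h1
  rw [← Real.exp_add]
  apply Real.exp_le_exp.mpr
  have h2 : (a i₀ + k) ^ 2 ≤ ∑ i, (a i + k) ^ 2 :=
    Finset.single_le_sum (f := fun i => (a i + k) ^ 2) (fun i _ => sq_nonneg _) (Finset.mem_univ i₀)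
  have h3 : m * (a i₀ + k) ^ 2 ≤ m * ∑ i, (a i + k) ^ 2 := mul_le_mul_of_nonneg_left h2 hm.le
  nlinarith [mul_nonneg hm.le (sq_nonneg (2 * a i₀ + k))]

theorem Fti_pos {s : Type*} [Fintype s] [Nonempty s] (m : ℝ) (hm : 0 < m) (a : s → ℝ) :
    0 < Fti m a :=
  (Fti_summable m hm a).tsum_pos (fun _ => (Real.exp_pos _).le) 0 (Real.exp_pos _)

end Pool.Agent.LR.B4
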