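import Mathlib

/-!
# LR-B4-PUSH: law of finitely many functionals of a weighted countable sum

PLAN. `Z = ∑' i, p i > 0`. `ν = Measure.sum (fun i => ENNReal.ofReal (p i / Z) • Measure.dirac (w i))`.
Probability: `ν univ = ∑' i, ENNReal.ofReal (p i / Z) = ENNReal.ofReal (∑' i, p i / Z) = 1`
(`ENNReal.ofReal_tsum_of_nonneg`, `tsum_div_const`). Integral of the bounded measurable `G`:
`MeasureTheory.integral_sum_measure` (or `hasSum_integral_measure`), `integral_smul_measure`,
`integral_dirac` (finite dimensional measurable singleton space or `integral_dirac'` with strong measurability),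
`ENNReal.toReal_ofReal`; then `tsum_div_const`, `mul_div`. Alternative: PMF and `PMF.integral_eq_tsum` + `Measure.map`.
-/

set_option autoImplicit false

noncomputable section

open scoped BigOperators Topology
open MeasureTheory Filter Set

namespace Pool.Agent.LR.B4

theorem push {ι s : Type*} [Countable ι] [Fintype s] (p : ι → ℝ) (hp : ∀ i, 0 ≤ p i)
    (hs : Summable p) (hpos : 0 < ∑' i, p i) (w : ι → s → ℝ) :
    ∃ ν : Measure (s → ℝ), IsProbabilityMeasure ν ∧ ∀ G : (s → ℝ) → ℝ, Measurable G →
      (∃ C : ℝ, ∀ a, |G a| ≤ C) → ∫ a, G a ∂ν = (∑' i, p i * G (w i)) / ∑' i, p i := by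
  have hZ : ∀ i, 0 ≤ p i / ∑' i, p i := fun i => div_nonneg (hp i) hpos.le
  have hsum : Summable fun i => p i / ∑' i, p i := hs.div_const _
  have hprob : IsProbabilityMeasure (Measure.sum
      (fun i => ENNReal.ofReal (p i / ∑' i, p i) • Measure.dirac (w i))) := by
    constructor
    rw [Measure.sum_apply _ MeasurableSet.univ]
    have h1 : ∀ i, (ENNReal.ofReal (p i / ∑' i, p i) • Measure.dirac (w i)) Set.univ =
        ENNReal.ofReal (p i / ∑' i, p i) := by
      intro i
      rw [Measure.smul_apply, measure_univ, smul_eq_mul, mul_one]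
    simp_rw [h1]
    rw [← ENNReal.ofReal_tsum_of_nonneg hZ hsum, tsum_div_const, div_self hpos.ne',
      ENNReal.ofReal_one]
  refine ⟨_, hprob, ?_⟩
  rintro G hG ⟨C, hC⟩
  have hint : Integrable G (Measure.sum
      (fun i => ENNReal.ofReal (p i / ∑' i, p i) • Measure.dirac (w i))) := by
    refine Integrable.of_bound hG.aestronglyMeasurable C (Filter.Eventually.of_forall fun a => ?_)
    rw [Real.norm_eq_abs]
    exact hC a
  rw [integral_sum_measure hint]
  have h2 : ∀ i, ∫ a, G a ∂(ENNReal.ofReal (p i / ∑' i, p i) • Measure.dirac (w i)) =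
      p i * G (w i) / ∑' i, p i := by
    intro i
    rw [integral_smul_measure, integral_dirac, ENNReal.toReal_ofReal (hZ i), smul_eq_mul]
    ring
  simp_rw [h2]
  rw [tsum_div_const]

end Pool.Agent.LR.B4
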