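import Pool.Agent.LR.IDefs

/-!
# LR-B4-SPLIT: `ℤ^S = ℤ^(S \ root) × ℤ` and the partition function of the pinned model

PLAN. `r = root S ∈ S`. Bijection `e : ((S.erase r → ℤ) × ℤ) ≃ (S → ℤ)`,
`e (ψ, k) x = (if x = r then 0 else ψ x) + k`, inverse `ψ ↦ (x ↦ ψ x - ψ r, ψ r)`.
For `x ∈ S`: `emb S (e (ψ,k)) x = emb (S.erase r) ψ x + k`. `Qfr J S (φ) (φ) = ∑_{x,y∈S} J x y / 2 (φ x - φ y)²` (unfold
`Qfr`, `rk`, `ev`) only sees differences on `S`, so `Qfr J S (emb S (e(ψ,k)) - h) _ = Qfr J S (emb (S.erase r) ψ - h) _`.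
`avg (B i) (emb S (e(ψ,k)) - h) = avg (B i) (emb (S.erase r) ψ) + k - 0` (`B i ⊆ S` nonempty, `avg (B i) h = 0`).
So `wt M' S h (e(ψ,k)) = wt Q (S.erase r) h ψ * exp(-(1/2) m ∑ (a_i + k)²)`. Then `Equiv.tsum_eq`,
`Summable.tsum_prod` (summability: `hsum` transported by the equivalence; for real series `Summable.prod_factor` is
automatic), `tsum_mul_left`.
-/

set_option autoImplicit false

noncomputable section

open scoped BigOperators Topology
open MeasureTheory Filter Set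

namespace Pool.Agent.LR.B4

private theorem root_mem' {S : Finset V} (hS : S.Nonempty) : root S ∈ S := by
  unfold root
  rw [dif_pos hS]
  exact hS.choose_spec

/-- `ℤ^S = ℤ^(S minus root) × ℤ` -/
private def spE (S : Finset V) (r : V) (hr : r ∈ S) :
    ((↥(S.erase r) → ℤ) × ℤ) ≃ (S → ℤ) where
  toFun p x := (if h : (x : V) ∈ S.erase r then p.1 ⟨x, h⟩ else 0) + p.2
  invFun ψ := (fun x => ψ ⟨x, Finset.mem_of_mem_erase x.2⟩ - ψ ⟨r, hr⟩, ψ ⟨r, hr⟩)
  left_inv := by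
    rintro ⟨ψ, k⟩
    refine Prod.ext ?_ ?_
    · funext x
      have h1 : (x : V) ∈ S.erase r := x.2
      simp only [h1, dif_pos, Finset.notMem_erase, dif_neg, not_false_eq_true]
      simp
    · simp
  right_inv := by
    intro ψ
    funext x
    by_cases h : (x : V) ∈ S.erase r
    · simp [h]
    · have hx : (x : V) = r := by
        by_contra hne
        exact h (Finset.mem_erase.2 ⟨hne, x.2⟩)
      simp only [h, dif_neg, not_false_eq_true, zero_add]
      congr 1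
      exact Subtype.ext hx.symm

private theorem emb_spE (S : Finset V) (r : V) (hr : r ∈ S) (ψ : ↥(S.erase r) → ℤ)
    (k : ℤ) {y : V} (hy : y ∈ S) : emb S (spE S r hr (ψ, k)) y = emb (S.erase r) ψ y + k := by
  simp only [emb, hy, dif_pos]
  by_cases h : y ∈ S.erase r
  · simp only [spE, Equiv.coe_fn_mk, h, dif_pos]
    push_cast
    ring
  · simp only [spE, Equiv.coe_fn_mk, h, dif_neg, not_false_eq_true]
    push_cast
    ring

private theorem Qfr_app (J : V → V → ℝ) (S : Finset V) (f : V → ℝ) :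
    Qfr J S f f = ∑ x ∈ S, ∑ y ∈ S, J x y / 2 * (f x - f y) * (f x - f y) := by
  simp only [Qfr, rk, ev, LinearMap.sum_apply, LinearMap.mk₂_apply, LinearMap.sub_apply,
    LinearMap.proj_apply]

private theorem Qfr_shift (J : V → V → ℝ) (S : Finset V) {f g : V → ℝ} {c : ℝ}
    (h : ∀ y ∈ S, f y = g y + c) : Qfr J S f f = Qfr J S g g := by
  rw [Qfr_app, Qfr_app]
  refine Finset.sum_congr rfl fun x hx => Finset.sum_congr rfl fun y hy => ?_
  rw [h x hx, h y hy]
  ring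

private theorem avg_shift {B S : Finset V} (hB : B.Nonempty) (hBS : B ⊆ S) {f g : V → ℝ} {c : ℝ}
    (h : ∀ y ∈ S, f y = g y + c) : avg B f = avg B g + c := by
  have hc : (B.card : ℝ) ≠ 0 := by
    exact_mod_cast hB.card_pos.ne'
  simp only [avg, ev, LinearMap.smul_apply, LinearMap.sum_apply, LinearMap.proj_apply,
    smul_eq_mul]
  rw [Finset.sum_congr rfl fun x hx => h x (hBS hx), Finset.sum_add_distrib, Finset.sum_const,
    nsmul_eq_mul, mul_add]
  field_simp

private theorem wt_spE (J : V → V → ℝ) (S : Finset V) (r : V) (hr : r ∈ S) (A : Finset V)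
    (m : ℝ) (B : V → Finset V) (hB : ∀ i ∈ A, (B i).Nonempty ∧ B i ⊆ S) (h : V → ℝ)
    (hh : ∀ i ∈ A, avg (B i) h = 0) (ψ : ↥(S.erase r) → ℤ) (k : ℤ) :
    wt (Qfr J S + ∑ i ∈ A, rk m (avg (B i))) S h (spE S r hr (ψ, k)) =
      wt (Qfr J S) (S.erase r) h ψ * Real.exp (-(1 / 2) * m *
          ∑ i ∈ A, (avg (B i) (emb (S.erase r) ψ) + k) ^ 2) := by
  have h1 : Qfr J S (emb S (spE S r hr (ψ, k)) - h) (emb S (spE S r hr (ψ, k)) - h) =
      Qfr J S (emb (S.erase r) ψ - h) (emb (S.erase r) ψ - h) := by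
    refine Qfr_shift J S (c := (k : ℝ)) fun y hy => ?_
    rw [Pi.sub_apply, Pi.sub_apply, emb_spE S r hr ψ k hy]
    ring
  have h2 : ∀ i ∈ A, avg (B i) (emb S (spE S r hr (ψ, k)) - h) =
      avg (B i) (emb (S.erase r) ψ) + k := by
    intro i hi
    rw [map_sub, hh i hi, sub_zero]
    exact avg_shift (hB i hi).1 (hB i hi).2 fun y hy => emb_spE S r hr ψ k hy
  simp only [wt]
  rw [← Real.exp_add]
  congr 1
  rw [LinearMap.add_apply, LinearMap.add_apply, h1, LinearMap.sum_apply, LinearMap.sum_apply]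
  have h3 : ∑ i ∈ A, rk m (avg (B i)) (emb S (spE S r hr (ψ, k)) - h)
      (emb S (spE S r hr (ψ, k)) - h) = m * ∑ i ∈ A, (avg (B i) (emb (S.erase r) ψ) + k) ^ 2 := by
    rw [Finset.mul_sum]
    refine Finset.sum_congr rfl fun i hi => ?_
    simp only [rk, LinearMap.mk₂_apply]
    rw [h2 i hi]
    ring
  rw [h3]
  ring

theorem Th_split (J : V → V → ℝ) (S : Finset V) (hS : S.Nonempty) (A : Finset V) (m : ℝ)
    (B : V → Finset V) (hB : ∀ i ∈ A, (B i).Nonempty ∧ B i ⊆ S) (h : V → ℝ)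
    (hh : ∀ i ∈ A, avg (B i) h = 0)
    (hsum : Summable (wt (Qfr J S + ∑ i ∈ A, rk m (avg (B i))) S h)) :
    Th (Qfr J S + ∑ i ∈ A, rk m (avg (B i))) S h =
      ∑' ψ : (S.erase (root S) : Finset V) → ℤ, wt (Qfr J S) (S.erase (root S)) h ψ *
        ∑' k : ℤ, Real.exp (-(1 / 2) * m *
          ∑ i ∈ A, (avg (B i) (emb (S.erase (root S)) ψ) + k) ^ 2) := by
  have hr : root S ∈ S := root_mem' hS
  set e := spE S (root S) hr with he
  have h1 : Summable fun p : (↥(S.erase (root S)) → ℤ) × ℤ =>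
      wt (Qfr J S + ∑ i ∈ A, rk m (avg (B i))) S h (e p) := (Equiv.summable_iff e).2 hsum
  have h2 : Th (Qfr J S + ∑ i ∈ A, rk m (avg (B i))) S h =
      ∑' p : (↥(S.erase (root S)) → ℤ) × ℤ,
        wt (Qfr J S + ∑ i ∈ A, rk m (avg (B i))) S h (e p) := (Equiv.tsum_eq e _).symm
  rw [h2, h1.tsum_prod]
  refine tsum_congr fun ψ => ?_
  rw [← tsum_mul_left]
  refine tsum_congr fun k => ?_
  exact wt_spE J S (root S) hr A m B hB h hh ψ k

end Pool.Agent.LR.B4
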