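import Pool.Agent.LR.B4.Equi
import Pool.Agent.LR.B4.Lim
import Pool.Agent.LR.B4.Push
import Pool.Agent.LR.B4.Split

/-!
# B4, 6.3: exactness of the pinned model
-/

set_option autoImplicit false

noncomputable section

open scoped BigOperators Topology
open MeasureTheory Filter Set

namespace Pool.Agent.LR

namespace B4

/-- The pinned form is a form, positive definite once the blocks are nonempty. -/
theorem pdef_MP {α β : ℝ} (hβ : 0 < β) {z₀ : P} {ρ M δ : ℝ} (hρ : 0 < ρ) (hM : 0 < M) (hδ : 0 < δ)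
    (hδρ : δ ≤ ρ / 8) {n : ℕ} (hS : (SS z₀ ρ n).Nonempty)
    (hb : ∀ i ∈ pin z₀ ρ δ, (blk z₀ ρ δ n i).Nonempty) :
    IsForm (MP α β z₀ ρ M δ n) ∧ PDef (MP α β z₀ ρ M δ n) (SS z₀ ρ n) := by
  have hm : 0 < M * δ ^ 2 := by positivity
  have happ : ∀ f g : V → ℝ, MP α β z₀ ρ M δ n f g = QF α β (SS z₀ ρ n) f g +
      ∑ i ∈ pin z₀ ρ δ, M * δ ^ 2 * avg (blk z₀ ρ δ n i) f * avg (blk z₀ ρ δ n i) g := by
    intro f g
    simp only [MP, LinearMap.add_apply, LinearMap.sum_apply, rk, LinearMap.mk₂_apply]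
  have hQ := isForm_QF (α := α) hβ.le (SS z₀ ρ n)
  refine ⟨⟨fun f g => ?_, fun f => ?_⟩, fun f hf hf0 => ?_⟩
  · rw [happ, happ, hQ.symm]
    congr 1
    refine Finset.sum_congr rfl fun i _ => ?_
    ring
  · rw [happ]
    refine add_nonneg (hQ.nonneg f) (Finset.sum_nonneg fun i _ => ?_)
    have := mul_nonneg hm.le (mul_self_nonneg (avg (blk z₀ ρ δ n i) f))
    linarith
  · rw [happ]
    have hnn : 0 ≤ ∑ i ∈ pin z₀ ρ δ, M * δ ^ 2 * avg (blk z₀ ρ δ n i) f * avg (blk z₀ ρ δ n i) f := by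
      refine Finset.sum_nonneg fun i _ => ?_
      have := mul_nonneg hm.le (mul_self_nonneg (avg (blk z₀ ρ δ n i) f))
      linarith
    by_contra hcon
    push Not at hcon
    have hQ0 : QF α β (SS z₀ ρ n) f f ≤ 0 := by linarith
    have hsum0 : ∑ i ∈ pin z₀ ρ δ, M * δ ^ 2 * avg (blk z₀ ρ δ n i) f * avg (blk z₀ ρ δ n i) f ≤ 0 := by
      have := hQ.nonneg f
      linarith
    -- `f` is constant on `S`
    set r := root (SS z₀ ρ n) with hr
    have hrS : r ∈ SS z₀ ρ n := root_mem hS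
    set t := f r with ht
    set f' : V → ℝ := fun x => if x ∈ SS z₀ ρ n then f x - t else 0 with hf'
    have hf's : Supp ((SS z₀ ρ n).erase r) f' := by
      intro x hx
      by_cases hxS : x ∈ SS z₀ ρ n
      · have : x = r := by
          by_contra h
          exact hx (Finset.mem_erase.2 ⟨h, hxS⟩)
        rw [hf', this]
        simp [hrS, ht]
      · simp [hf', hxS]
    have hQf' : QF α β (SS z₀ ρ n) f' f' = QF α β (SS z₀ ρ n) f f := by
      rw [QF_self, QF_self]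
      refine Finset.sum_congr rfl fun x hx => Finset.sum_congr rfl fun y hy => ?_
      simp only [hf', hx, hy, if_true]
      ring
    have hf'0 : f' = 0 := by
      by_contra h
      have := pdef_QF_erase (α := α) hβ hrS f' hf's h
      rw [hQf'] at this
      linarith
    have hfc : ∀ x ∈ SS z₀ ρ n, f x = t := by
      intro x hx
      have := congrFun hf'0 x
      simp only [hf', hx, if_true, Pi.zero_apply] at this
      linarith
    have ht0 : t ≠ 0 := by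
      intro h
      apply hf0
      funext x
      by_cases hx : x ∈ SS z₀ ρ n
      · rw [hfc x hx, h]; rfl
      · exact hf x hx
    obtain ⟨i, hi⟩ := pin_nonempty (z₀ := z₀) hρ hδ hδρ
    have havg : avg (blk z₀ ρ δ n i) f = t := by
      rw [avg_apply]
      have : ∑ x ∈ blk z₀ ρ δ n i, f x = (blk z₀ ρ δ n i).card * t := by
        rw [Finset.sum_congr rfl fun x hx => hfc x (blk_sub hx), Finset.sum_const, nsmul_eq_mul]
      rw [this, ← mul_assoc, inv_mul_cancel₀, one_mul]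
      have := (hb i hi).card_pos
      exact_mod_cast this.ne'
    have hterm : M * δ ^ 2 * avg (blk z₀ ρ δ n i) f * avg (blk z₀ ρ δ n i) f ≤
        ∑ i ∈ pin z₀ ρ δ, M * δ ^ 2 * avg (blk z₀ ρ δ n i) f * avg (blk z₀ ρ δ n i) f := by
      refine Finset.single_le_sum (f := fun i => M * δ ^ 2 * avg (blk z₀ ρ δ n i) f *
        avg (blk z₀ ρ δ n i) f) (fun j _ => ?_) hi
      have := mul_nonneg hm.le (mul_self_nonneg (avg (blk z₀ ρ δ n j) f))
      linarith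
    rw [havg] at hterm
    have : 0 < M * δ ^ 2 * t * t := by
      have : 0 < t * t := mul_self_pos.2 ht0
      have := mul_pos hm this
      linarith
    linarith

/-- The law of the block averages under the rooted free model with shift `h`, and what it knows. -/
theorem law {α β : ℝ} (hβ : 0 < β) {z₀ : P} {ρ M δ : ℝ} (hρ : 0 < ρ) (hM : 0 < M) (hδ : 0 < δ)
    (hδρ : δ ≤ ρ / 8) {n : ℕ} (hS : (SS z₀ ρ n).Nonempty)
    (hb : ∀ i ∈ pin z₀ ρ δ, (blk z₀ ρ δ n i).Nonempty) (h : V → ℝ)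
    (hh : ∀ i ∈ pin z₀ ρ δ, avg (blk z₀ ρ δ n i) h = 0) :
    ∃ ν : Measure ({i // i ∈ pin z₀ ρ δ} → ℝ), IsProbabilityMeasure ν ∧
      (∀ c : V → ℝ, ∫ a, Real.cos (∑ i : {i // i ∈ pin z₀ ρ δ}, c i * a i) ∂ν =
        Exr (JJ α β) (SS z₀ ρ n) h (fun φ => Real.cos (pr (SS z₀ ρ n) (bq z₀ ρ δ c n) φ))) ∧
      Th (MP α β z₀ ρ M δ n) (SS z₀ ρ n) h =
        Th (Qfr (JJ α β) (SS z₀ ρ n)) ((SS z₀ ρ n).erase (root (SS z₀ ρ n))) h *
          ∫ a, Fti (M * δ ^ 2) a ∂ν := by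
  have hm : 0 < M * δ ^ 2 := by positivity
  have : Nonempty {i // i ∈ pin z₀ ρ δ} := by
    obtain ⟨i, hi⟩ := pin_nonempty (z₀ := z₀) hρ hδ hδρ
    exact ⟨⟨i, hi⟩⟩
  have hQ : IsForm (Qfr (JJ α β) (SS z₀ ρ n)) := isForm_QF (α := α) hβ.le (SS z₀ ρ n)
  have hP : PDef (Qfr (JJ α β) (SS z₀ ρ n)) ((SS z₀ ρ n).erase (root (SS z₀ ρ n))) :=
    pdef_QF_erase (α := α) hβ (root_mem hS)
  obtain ⟨hF', hP'⟩ := pdef_MP (α := α) hβ hρ hM hδ hδρ hS hb
  have hTh := Th_pos hQ hP h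
  obtain ⟨ν, hνp, hν⟩ := push
    (wt (Qfr (JJ α β) (SS z₀ ρ n)) ((SS z₀ ρ n).erase (root (SS z₀ ρ n))) h)
    (fun ψ => (Real.exp_pos _).le) (summable_wt hQ hP h) hTh
    (fun (ψ : ↥((SS z₀ ρ n).erase (root (SS z₀ ρ n))) → ℤ) (i : {i // i ∈ pin z₀ ρ δ}) =>
      avg (blk z₀ ρ δ n i) (emb ((SS z₀ ρ n).erase (root (SS z₀ ρ n))) ψ))
  refine ⟨ν, hνp, fun c => ?_, ?_⟩
  · rw [hν (fun a => Real.cos (∑ i : {i // i ∈ pin z₀ ρ δ}, c i * a i)) (by fun_prop)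
      ⟨1, fun a => Real.abs_cos_le_one _⟩]
    unfold Exr Ex Th
    congr 1
    refine tsum_congr fun ψ => ?_
    congr 2
    rw [pr_bq]
    exact Finset.sum_coe_sort (pin z₀ ρ δ) (fun i => c i * avg (blk z₀ ρ δ n i) (emb _ ψ))
  · rw [hν (Fti (M * δ ^ 2)) (Fti_meas _ hm) (Fti_bdd _ hm)]
    have hsp := Th_split (JJ α β) (SS z₀ ρ n) hS (pin z₀ ρ δ) (M * δ ^ 2) (blk z₀ ρ δ n)
      (fun i hi => ⟨hb i hi, blk_sub⟩) h hh (summable_wt hF' hP' h)
    have e1 : Th (MP α β z₀ ρ M δ n) (SS z₀ ρ n) h =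
      Th (Qfr (JJ α β) (SS z₀ ρ n) +
        ∑ i ∈ pin z₀ ρ δ, rk (M * δ ^ 2) (avg (blk z₀ ρ δ n i))) (SS z₀ ρ n) h := rfl
    rw [e1, hsp]
    have hTh' : (∑' ψ : ↥((SS z₀ ρ n).erase (root (SS z₀ ρ n))) → ℤ,
      wt (Qfr (JJ α β) (SS z₀ ρ n)) ((SS z₀ ρ n).erase (root (SS z₀ ρ n))) h ψ) ≠ 0 := hTh.ne'
    unfold Th
    rw [mul_div_cancel₀ _ hTh']
    refine tsum_congr fun ψ => ?_
    congr 1
    unfold Fti
    refine tsum_congr fun k => ?_
    rw [← Finset.sum_coe_sort (pin z₀ ρ δ)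
      (fun i => (avg (blk z₀ ρ δ n i) (emb ((SS z₀ ρ n).erase (root (SS z₀ ρ n))) ψ) +
        (k : ℝ)) ^ 2)]

end B4

open B4

theorem exact {α β κ : ℝ} (hα : 4 < α) (hβ : 0 < β) (hκ : KapSpec α β κ) (hlt : κ < cc α β)
    (z₀ : P) {ρ M δ : ℝ} (hρ : 0 < ρ) (hM : 0 < M) (hδ : 0 < δ) (hδρ : δ ≤ ρ / 8)
    (H : P → ℝ) (hH : ContDiff ℝ 2 H) (hc : HasCompactSupport H)
    (hs : ∀ z ∈ tsupport H, lenP (z - z₀) < 12 * ρ)
    (h0 : ∀ i ∈ pin z₀ ρ δ, ∀ z ∈ cellP z₀ δ i, H z = 0) :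
    Tendsto (fun n => En (MP α β z₀ ρ M δ n) (SS z₀ ρ n) (smp H n)) atTop
      (𝓝 (κ / 2 * Dir H)) := by
  classical
  have hm : 0 < M * δ ^ 2 := by positivity
  have hne : Nonempty {i // i ∈ pin z₀ ρ δ} := by
    obtain ⟨i, hi⟩ := pin_nonempty (z₀ := z₀) hρ hδ hδρ
    exact ⟨⟨i, hi⟩⟩
  have hcc : 0 < cc α β := lt_of_le_of_lt hκ.nonneg hlt
  -- averages of the shift vanish
  have hh : ∀ n : ℕ, ∀ i ∈ pin z₀ ρ δ, avg (blk z₀ ρ δ n i) (smp H n) = 0 := by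
    intro n i hi
    rw [avg_apply, Finset.sum_eq_zero, mul_zero]
    intro x hx
    exact h0 i hi _ (sc_mem_cell hδ hx)
  have hh0 : ∀ n : ℕ, ∀ i ∈ pin z₀ ρ δ, avg (blk z₀ ρ δ n i) (0 : V → ℝ) = 0 := by
    intro n i _
    exact map_zero _
  -- choice of the laws
  have hex : ∀ (h : ℕ → V → ℝ), (∀ n : ℕ, ∀ i ∈ pin z₀ ρ δ, avg (blk z₀ ρ δ n i) (h n) = 0) →
      ∀ n : ℕ, ∃ ν : Measure ({i // i ∈ pin z₀ ρ δ} → ℝ), IsProbabilityMeasure ν ∧
      ((SS z₀ ρ n).Nonempty → (∀ i ∈ pin z₀ ρ δ, (blk z₀ ρ δ n i).Nonempty) →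
      (∀ c : V → ℝ, ∫ a, Real.cos (∑ i : {i // i ∈ pin z₀ ρ δ}, c i * a i) ∂ν =
        Exr (JJ α β) (SS z₀ ρ n) (h n) (fun φ => Real.cos (pr (SS z₀ ρ n) (bq z₀ ρ δ c n) φ))) ∧
      Th (MP α β z₀ ρ M δ n) (SS z₀ ρ n) (h n) =
        Th (Qfr (JJ α β) (SS z₀ ρ n)) ((SS z₀ ρ n).erase (root (SS z₀ ρ n))) (h n) *
          ∫ a, Fti (M * δ ^ 2) a ∂ν) := by
    intro h hhn n
    by_cases hg : (SS z₀ ρ n).Nonempty ∧ ∀ i ∈ pin z₀ ρ δ, (blk z₀ ρ δ n i).Nonempty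
    · obtain ⟨ν, h1, h2, h3⟩ := law (α := α) hβ hρ hM hδ hδρ hg.1 hg.2 (h n) (hhn n)
      exact ⟨ν, h1, fun _ _ => ⟨h2, h3⟩⟩
    · exact ⟨Measure.dirac 0, inferInstance, fun a b => absurd ⟨a, b⟩ hg⟩
  choose ν hνp hν using hex (fun n => smp H n) hh
  choose ν0 hν0p hν0 using hex (fun _ => 0) hh0
  have hS := sc_ne (z₀ := z₀) hρ
  have hb := blk_nonempty (z₀ := z₀) hρ hδ
  -- extension of coefficients
  have hext : ∀ c : {i // i ∈ pin z₀ ρ δ} → ℝ, ∃ c' : V → ℝ,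
      (∀ i : {i // i ∈ pin z₀ ρ δ}, c' i = c i) ∧ ∑ i ∈ pin z₀ ρ δ, c' i = ∑ i, c i := by
    intro c
    refine ⟨fun i => if hi : i ∈ pin z₀ ρ δ then c ⟨i, hi⟩ else 0, fun i => ?_, ?_⟩
    · simp [i.2]
    · rw [← Finset.sum_coe_sort (pin z₀ ρ δ)
        (fun i => if hi : i ∈ pin z₀ ρ δ then c ⟨i, hi⟩ else 0)]
      refine Finset.sum_congr rfl fun i _ => ?_
      simp [i.2]
  have hrw : ∀ (c : {i // i ∈ pin z₀ ρ δ} → ℝ) (c' : V → ℝ),
      (∀ i : {i // i ∈ pin z₀ ρ δ}, c' i = c i) → ∀ a : {i // i ∈ pin z₀ ρ δ} → ℝ,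
      Real.cos (∑ i, c i * a i) = Real.cos (∑ i : {i // i ∈ pin z₀ ρ δ}, c' i * a i) := by
    intro c c' hcc' a
    congr 1
    exact Finset.sum_congr rfl fun i _ => by rw [hcc']
  have hratio := lim_ratio (M * δ ^ 2) hm ν ν0 hνp hν0p
    (by
      filter_upwards [hS, hb] with n h1 h2 c
      obtain ⟨c', hc', _⟩ := hext c
      simp only [hrw c c' hc']
      rw [(hν n h1 h2).1 c', (hν0 n h1 h2).1 c']
      exact Exr_cos (α := α) hβ h1 _ _)
    (by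
      intro l hl c hcl
      obtain ⟨c', hc', hcs⟩ := hext c
      simp only [hrw c c' hc']
      have hE := equi hα hβ hκ hlt (z₀ := z₀) hρ hδ l hl c' (by rw [hcs, hcl])
      refine hE.congr' ?_
      filter_upwards [hS, hb] with n h1 h2
      rw [(hν0 n h1 h2).1 c'])
    (by
      intro c hcl
      obtain ⟨c', hc', hcs⟩ := hext c
      simp only [hrw c c' hc']
      obtain ⟨q, hq, hqe⟩ := chg1 (z₀ := z₀) hρ hδ c' (by rw [hcs, hcl])
      obtain ⟨N, _, _, hNlim⟩ := char_free hα hβ hκ (a := z₀.1 - 13 * ρ) (b := z₀.1 + 13 * ρ)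
        (c := z₀.2 - 13 * ρ) (d := z₀.2 + 13 * ρ) (by linarith) (by linarith) q _ hq
      have hint : tsupport H ⊆ interior (rct (z₀.1 - 13 * ρ) (z₀.1 + 13 * ρ) (z₀.2 - 13 * ρ)
          (z₀.2 + 13 * ρ)) := by
        intro z hz
        have h1 := hs z hz
        have h2 : |(z - z₀).1| ≤ lenP (z - z₀) := by
          unfold lenP
          exact Real.abs_le_sqrt (by nlinarith [sq_nonneg (z - z₀).2])
        have h3 : |(z - z₀).2| ≤ lenP (z - z₀) := by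
          unfold lenP
          exact Real.abs_le_sqrt (by nlinarith [sq_nonneg (z - z₀).1])
        have h4 := abs_le.1 h2
        have h5 := abs_le.1 h3
        simp only [Prod.fst_sub, Prod.snd_sub] at h4 h5
        simp only [rct, interior_prod_eq, interior_Icc, Set.mem_prod, Set.mem_Ioo]
        refine ⟨⟨?_, ?_⟩, ?_, ?_⟩ <;> linarith [h4.1, h4.2, h5.1, h5.2]
      have hzero : ∀ G : P → ℝ, (∀ i ∈ pin z₀ ρ δ, ∀ z ∈ cellP z₀ δ i, G z = 0) →
          (∫ z in rct (z₀.1 - 13 * ρ) (z₀.1 + 13 * ρ) (z₀.2 - 13 * ρ) (z₀.2 + 13 * ρ),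
            bF z₀ ρ δ c' z * G z) = 0 := by
        intro G hG
        simp [bF_mul c' G hG]
      have l1 := hNlim H hH hc hint (hzero H h0) 0
      have l2 := hNlim (fun _ => 0) contDiff_const HasCompactSupport.zero (by simp [tsupport])
        (hzero _ (fun _ _ _ _ => rfl)) 0
      refine ⟨Real.cos 0 * Real.exp (-((1 - κ / cc α β) / 2 * N)), ?_, ?_, ?_⟩
      · rw [Real.cos_zero, one_mul]; exact Real.exp_pos _
      · refine l1.congr' ?_
        filter_upwards [hS, hb, hqe] with n h1 h2 h3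
        rw [(hν n h1 h2).1 c', h3]
        simp only [add_zero]
        rfl
      · refine l2.congr' ?_
        filter_upwards [hS, hb, hqe] with n h1 h2 h3
        rw [(hν0 n h1 h2).1 c', h3]
        simp only [add_zero]
        rfl)
  -- the free part
  have hta := hκ.ta (z₀.1 - 13 * ρ) (z₀.1 + 13 * ρ) (z₀.2 - 13 * ρ) (z₀.2 + 13 * ρ) (by linarith)
    (by linarith) H hH
  have hDir : ∫ z in rct (z₀.1 - 13 * ρ) (z₀.1 + 13 * ρ) (z₀.2 - 13 * ρ) (z₀.2 + 13 * ρ), gsq H z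
      = Dir H := by
    unfold Dir
    apply setIntegral_eq_integral_of_forall_compl_eq_zero
    intro z hz
    have hz' : z ∉ tsupport H := by
      intro hzt
      apply hz
      have h1 := hs z hzt
      have h2 : |(z - z₀).1| ≤ lenP (z - z₀) := by
        unfold lenP
        exact Real.abs_le_sqrt (by nlinarith [sq_nonneg (z - z₀).2])
      have h3 : |(z - z₀).2| ≤ lenP (z - z₀) := by
        unfold lenP
        exact Real.abs_le_sqrt (by nlinarith [sq_nonneg (z - z₀).1])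
      have h4 := abs_le.1 h2
      have h5 := abs_le.1 h3
      simp only [Prod.fst_sub, Prod.snd_sub] at h4 h5
      simp only [rct, Set.mem_prod, Set.mem_Icc]
      refine ⟨⟨?_, ?_⟩, ?_, ?_⟩ <;> linarith [h4.1, h4.2, h5.1, h5.2]
    have hf : fderiv ℝ H z = 0 := by
      by_contra hcon
      exact hz' (support_fderiv_subset ℝ (Function.mem_support.2 hcon))
    simp [gsq, hf]
  rw [hDir] at hta
  have hlog : Tendsto (fun n => -Real.log ((∫ a, Fti (M * δ ^ 2) a ∂(ν n)) /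
      ∫ a, Fti (M * δ ^ 2) a ∂(ν0 n))) atTop (𝓝 0) := by
    have := (hratio.log one_ne_zero).neg
    simpa using this
  have hsum := hta.add hlog
  rw [add_zero] at hsum
  refine hsum.congr' ?_
  filter_upwards [hS, hb] with n h1 h2
  have hQ : IsForm (Qfr (JJ α β) (SS z₀ ρ n)) := isForm_QF (α := α) hβ.le _
  have hP : PDef (Qfr (JJ α β) (SS z₀ ρ n)) ((SS z₀ ρ n).erase (root (SS z₀ ρ n))) :=
    pdef_QF_erase (α := α) hβ (root_mem h1)
  obtain ⟨hF', hP'⟩ := pdef_MP (α := α) hβ hρ hM hδ hδρ h1 h2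
  have t1 := Th_pos hQ hP (smp H n)
  have t2 := Th_pos hQ hP 0
  have t3 := Th_pos hF' hP' (smp H n)
  have t4 := Th_pos hF' hP' 0
  have e1 := (hν n h1 h2).2
  have e2 := (hν0 n h1 h2).2
  rw [e1] at t3
  rw [e2] at t4
  have i1 : 0 < ∫ a, Fti (M * δ ^ 2) a ∂(ν n) := (mul_pos_iff_of_pos_left t1).1 t3
  have i2 : 0 < ∫ a, Fti (M * δ ^ 2) a ∂(ν0 n) := (mul_pos_iff_of_pos_left t2).1 t4
  unfold En
  rw [e1, e2, mul_div_mul_comm, Real.log_mul (div_pos t1 t2).ne' (div_pos i1 i2).ne']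
  have e3 : Efr (JJ α β) (bx (z₀.1 - 13 * ρ) (z₀.1 + 13 * ρ) (z₀.2 - 13 * ρ) (z₀.2 + 13 * ρ) n)
      (smp H n) = -Real.log (Th (Qfr (JJ α β) (SS z₀ ρ n))
        ((SS z₀ ρ n).erase (root (SS z₀ ρ n))) (smp H n) / Th (Qfr (JJ α β) (SS z₀ ρ n))
        ((SS z₀ ρ n).erase (root (SS z₀ ρ n))) 0) := rfl
  rw [e3]
  ring

end Pool.Agent.LR
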