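import Mathlib

/-!
# B4, Jacobi identity: Poisson summation for the integer shift of the pinned blocks
-/

set_option autoImplicit false

noncomputable section

open scoped BigOperators Topology
open MeasureTheory Filter Set

namespace Pool.Agent.LR.B4

/-- `∑_l exp(-c l²)` converges over the integers. -/
theorem summable_gauss (c : ℝ) (hc : 0 < c) :
    Summable (fun l : ℤ => Real.exp (-c * (l : ℝ) ^ 2)) := by
  have h1 : Summable (fun n : ℕ => Real.exp (-c * (n : ℝ) ^ 2)) := by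
    have hg : Summable (fun n : ℕ => (Real.exp (-c)) ^ n) := by
      apply summable_geometric_of_lt_one (Real.exp_pos _).le
      rw [Real.exp_lt_one_iff]
      linarith
    refine Summable.of_nonneg_of_le (fun n => (Real.exp_pos _).le) (fun n => ?_) hg
    rw [← Real.exp_nat_mul]
    apply Real.exp_le_exp.mpr
    rcases Nat.eq_zero_or_pos n with h0 | h0
    · subst h0; simp
    · have h2 : (1 : ℝ) ≤ n := by exact_mod_cast h0
      have h3 : (n : ℝ) ≤ (n : ℝ) ^ 2 := by nlinarith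
      nlinarith
  refine Summable.of_nat_of_neg ?_ ?_
  · simpa using h1
  · simpa using h1

/-- Poisson summation for a shifted Gaussian. -/
theorem poisson_shift (m : ℝ) (hm : 0 < m) (a : ℝ) :
    ∑' k : ℤ, Real.exp (-(1 / 2) * m * (a + k) ^ 2)
      = Real.sqrt (2 * Real.pi / m) *
        ∑' l : ℤ, Real.exp (-(2 * Real.pi ^ 2 / m) * (l : ℝ) ^ 2) *
          Real.cos (2 * Real.pi * l * a) := by
  have hpi := Real.pi_pos
  have hc : 0 < 2 * Real.pi ^ 2 / m := by positivity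
  set A : ℝ := 2 * Real.pi / m with hA
  have hApos : 0 < A := by positivity
  have key := Complex.tsum_exp_neg_quadratic (a := (A : ℂ)) (by simpa using hApos)
    (-(Complex.I * (a : ℂ)))
  have e1 : ∀ n : ℤ, Complex.exp (-(Real.pi : ℂ) / (A : ℂ) *
      ((n : ℂ) + Complex.I * (-(Complex.I * (a : ℂ)))) ^ 2)
      = ((Real.exp (-(1 / 2) * m * (a + n) ^ 2) : ℝ) : ℂ) := by
    intro n
    rw [Complex.ofReal_exp]
    have h1 : (n : ℂ) + Complex.I * (-(Complex.I * (a : ℂ))) = (n : ℂ) + (a : ℂ) := by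
      have : Complex.I * (-(Complex.I * (a : ℂ))) = -(Complex.I * Complex.I) * (a : ℂ) := by ring
      rw [this, Complex.I_mul_I]; ring
    rw [h1, hA]
    have h2 : (m : ℂ) ≠ 0 := by exact_mod_cast hm.ne'
    have h3 : (Real.pi : ℂ) ≠ 0 := by exact_mod_cast hpi.ne'
    rw [Complex.exp_eq_exp_iff_exists_int]
    refine ⟨0, ?_⟩
    push_cast
    field_simp
    ring
  have e2 : ∀ n : ℤ, Complex.exp (-(Real.pi : ℂ) * (A : ℂ) * (n : ℂ) ^ 2 +
      2 * (Real.pi : ℂ) * (-(Complex.I * (a : ℂ))) * (n : ℂ))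
      = ((Real.exp (-(2 * Real.pi ^ 2 / m) * (n : ℝ) ^ 2) : ℝ) : ℂ) *
        Complex.exp (((-(2 * Real.pi * n * a) : ℝ) : ℂ) * Complex.I) := by
    intro n
    rw [Complex.ofReal_exp, ← Complex.exp_add]
    rw [hA]
    have h2 : (m : ℂ) ≠ 0 := by exact_mod_cast hm.ne'
    rw [Complex.exp_eq_exp_iff_exists_int]
    refine ⟨0, ?_⟩
    push_cast
    field_simp
    ring
  simp_rw [e1, e2] at key
  have hsum : Summable (fun n : ℤ => ((Real.exp (-(2 * Real.pi ^ 2 / m) * (n : ℝ) ^ 2) : ℝ) : ℂ) *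
        Complex.exp (((-(2 * Real.pi * n * a) : ℝ) : ℂ) * Complex.I)) := by
    apply Summable.of_norm
    have : ∀ n : ℤ, ‖((Real.exp (-(2 * Real.pi ^ 2 / m) * (n : ℝ) ^ 2) : ℝ) : ℂ) *
        Complex.exp (((-(2 * Real.pi * n * a) : ℝ) : ℂ) * Complex.I)‖
        = Real.exp (-(2 * Real.pi ^ 2 / m) * (n : ℝ) ^ 2) := by
      intro n
      rw [norm_mul, Complex.norm_exp_ofReal_mul_I, mul_one, Complex.norm_real,
        Real.norm_of_nonneg (Real.exp_pos _).le]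
    simp_rw [this]
    exact summable_gauss _ hc
  have hre := congrArg Complex.re key
  rw [Complex.re_tsum hsum] at hre
  have e3 : ∀ n : ℤ, (((Real.exp (-(2 * Real.pi ^ 2 / m) * (n : ℝ) ^ 2) : ℝ) : ℂ) *
        Complex.exp (((-(2 * Real.pi * n * a) : ℝ) : ℂ) * Complex.I)).re
      = Real.exp (-(2 * Real.pi ^ 2 / m) * (n : ℝ) ^ 2) * Real.cos (2 * Real.pi * n * a) := by
    intro n
    rw [Complex.re_ofReal_mul, Complex.exp_ofReal_mul_I_re, Real.cos_neg]
  simp_rw [e3] at hre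
  rw [← Complex.ofReal_tsum] at hre
  have e4 : (1 : ℂ) / (A : ℂ) ^ (1 / 2 : ℂ) = (((Real.sqrt A)⁻¹ : ℝ) : ℂ) := by
    have h5 : ((Real.sqrt A : ℝ) : ℂ) = (A : ℂ) ^ (1 / 2 : ℂ) := by
      rw [Real.sqrt_eq_rpow, Complex.ofReal_cpow hApos.le]
      norm_num
    rw [← h5]
    push_cast
    rw [one_div]
  rw [e4, ← Complex.ofReal_mul, Complex.ofReal_re] at hre
  rw [hre, ← mul_assoc, mul_inv_cancel₀ (Real.sqrt_pos.mpr hApos).ne', one_mul]

/-- The pinned block factor summed over a common integer shift. -/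
theorem jacobi {I : Type*} (s : Finset I) (m a : I → ℝ) (hs : 0 < ∑ i ∈ s, m i) :
    ∑' k : ℤ, Real.exp (-(1 / 2) * ∑ i ∈ s, m i * (a i + k) ^ 2)
      = Real.sqrt (2 * Real.pi / ∑ i ∈ s, m i) *
        ∑' l : ℤ, Real.exp (-(2 * Real.pi ^ 2 / ∑ i ∈ s, m i) * (l : ℝ) ^ 2) *
          (Real.exp (-(1 / 2) * ∑ i ∈ s, m i * (a i - (∑ j ∈ s, m j * a j) / ∑ j ∈ s, m j) ^ 2) *
            Real.cos (2 * Real.pi * l * ((∑ j ∈ s, m j * a j) / ∑ j ∈ s, m j))) := by
  set μ : ℝ := ∑ i ∈ s, m i with hμ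
  set b : ℝ := (∑ j ∈ s, m j * a j) / μ with hb
  have hbμ : ∑ j ∈ s, m j * a j = b * μ := by
    rw [hb, div_mul_cancel₀ _ hs.ne']
  have h1 : ∀ k : ℤ, ∑ i ∈ s, m i * (a i + k) ^ 2
      = ∑ i ∈ s, m i * (a i - b) ^ 2 + μ * (b + k) ^ 2 := by
    intro k
    have h2 : ∀ i ∈ s, m i * (a i + k) ^ 2
        = m i * (a i - b) ^ 2 + (2 * (b + k) * (m i * a i) + (k ^ 2 - b ^ 2) * m i) := by
      intro i _; ring
    rw [Finset.sum_congr rfl h2, Finset.sum_add_distrib, Finset.sum_add_distrib,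
      ← Finset.mul_sum, ← Finset.mul_sum, hbμ, ← hμ]
    ring
  have h3 : ∀ k : ℤ, Real.exp (-(1 / 2) * ∑ i ∈ s, m i * (a i + k) ^ 2)
      = Real.exp (-(1 / 2) * ∑ i ∈ s, m i * (a i - b) ^ 2) *
        Real.exp (-(1 / 2) * μ * (b + k) ^ 2) := by
    intro k
    rw [h1, ← Real.exp_add]
    congr 1
    ring
  simp_rw [h3]
  rw [tsum_mul_left, poisson_shift μ hs b, ← mul_assoc, mul_comm (Real.exp _) (Real.sqrt _), mul_assoc,
    ← tsum_mul_left]
  have h4 : ∀ l : ℤ, Real.exp (-(1 / 2) * ∑ i ∈ s, m i * (a i - b) ^ 2) *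
      (Real.exp (-(2 * Real.pi ^ 2 / μ) * (l : ℝ) ^ 2) * Real.cos (2 * Real.pi * l * b))
      = Real.exp (-(2 * Real.pi ^ 2 / μ) * (l : ℝ) ^ 2) *
        (Real.exp (-(1 / 2) * ∑ i ∈ s, m i * (a i - b) ^ 2) * Real.cos (2 * Real.pi * l * b)) := by
    intro l; ring
  simp_rw [h4]

end Pool.Agent.LR.B4
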